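import Mathlib

/-! # Expansion of the powers of a sum over primes of Hecke eigenvalues -/

set_option autoImplicit false

namespace Pool.Agent.Q255.CV

open Finset

/-- `x ^ i = ∑ b ≤ i, cc i b * U_b(x)` for the Chebyshev polynomials -/
def cc : ℕ → ℕ → ℕ
  | 0, 0 => 1
  | 0, _ + 1 => 0
  | i + 1, 0 => cc i 1
  | i + 1, b + 1 => cc i b + cc i (b + 2)

theorem cc_zero_of_lt : ∀ (i b : ℕ), i < b → cc i b = 0
  | 0, 0, h => absurd h (lt_irrefl _)
  | 0, _ + 1, _ => rfl
  | _ + 1, 0, h => absurd h (by omega)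
  | i + 1, b + 1, h => by
    rw [cc, cc_zero_of_lt i b (by omega), cc_zero_of_lt i (b + 2) (by omega)]

/-- the functional `x ^ i ↦ ∑ b, cc i b * h b` -/
noncomputable def TT (h : ℕ → ℝ) (i : ℕ) : ℝ := ∑ b ∈ range (i + 1), (cc i b : ℝ) * h b

theorem TT_zero (h : ℕ → ℝ) : TT h 0 = h 0 := by
  simp [TT, cc]

theorem TT_succ (h : ℕ → ℝ) (i : ℕ) :
    TT h (i + 1) = TT (fun b => h (b + 1) + if b = 0 then 0 else h (b - 1)) i := by
  unfold TT
  rw [sum_range_succ', ]
  have e1 : ∀ b, (cc (i + 1) (b + 1) : ℝ) = cc i b + cc i (b + 2) := fun b => by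
    rw [cc]; push_cast; ring
  have e2 : (cc (i + 1) 0 : ℝ) = cc i 1 := by rw [cc]
  simp only [e1, e2, add_mul, mul_add, sum_add_distrib]
  have e3 : ∑ x ∈ range (i + 1), (cc i (x + 2) : ℝ) * h (x + 1) + (cc i 1 : ℝ) * h 0 =
      ∑ x ∈ range (i + 1 + 1), (cc i (x + 1) : ℝ) * h x := by
    conv_rhs => rw [sum_range_succ']
  have e4 : ∑ x ∈ range (i + 1 + 1), (cc i (x + 1) : ℝ) * h x =
      ∑ x ∈ range i, (cc i (x + 1) : ℝ) * h x := by
    rw [sum_range_succ, sum_range_succ, cc_zero_of_lt i (i + 1) (by omega),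
      cc_zero_of_lt i (i + 1 + 1) (by omega)]
    simp
  have e5 : ∑ x ∈ range (i + 1), (cc i x : ℝ) * (if x = 0 then 0 else h (x - 1)) =
      ∑ x ∈ range i, (cc i (x + 1) : ℝ) * h x := by
    rw [sum_range_succ']
    simp
  rw [e5, ← e4, ← e3]
  ring

theorem TT_pow (u : ℕ → ℝ) (h0 : u 0 = 1) (h1 : ∀ b, u 1 * u (b + 1) = u (b + 2) + u b) (i : ℕ) :
    u 1 ^ i = TT u i := by
  have key : ∀ (i : ℕ) (v : ℕ → ℝ), (∀ b, u 1 * v (b) = v (b + 1) + if b = 0 then 0 else v (b - 1)) →
      u 1 ^ i * v 0 = TT v i := by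
    intro i
    induction i with
    | zero => intro v _; rw [TT_zero]; simp
    | succ i ih =>
      intro v hv
      rw [TT_succ, pow_succ, mul_assoc]
      have h2 := ih (fun b => v (b + 1) + if b = 0 then 0 else v (b - 1)) (fun b => by
        have e : ∀ b, (v (b + 1) + if b = 0 then 0 else v (b - 1)) = u 1 * v b := fun b =>
          (hv b).symm
        simp only [e]
        by_cases hb : b = 0
        · subst hb
          simp only [if_true]
          rw [hv 0]
          simp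
        · simp only [if_neg hb]
          rw [← mul_add, hv b, if_neg hb])
      rw [← h2]
      simp only [if_true]
      rw [hv 0]
      simp
  have h2 := key i u (fun b => by
    cases b with
    | zero => simp [h0]
    | succ b => simpa using h1 b)
  rw [← h2, h0, mul_one]

theorem sum_cc_le (i : ℕ) : ∑ b ∈ range (i + 1), (cc i b : ℝ) ≤ 2 ^ i := by
  have key : ∀ (i : ℕ) (h : ℕ → ℝ) (M : ℝ), (∀ b, h b ≤ M) → 0 ≤ M → TT h i ≤ M * 2 ^ i := by
    intro i
    induction i with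
    | zero => intro h M hM _; rw [TT_zero]; simpa using hM 0
    | succ i ih =>
      intro h M hM h0
      rw [TT_succ]
      refine (ih _ (2 * M) (fun b => ?_) (by positivity)).trans (le_of_eq (by ring))
      split_ifs
      · linarith [hM (b + 1)]
      · linarith [hM (b + 1), hM (b - 1)]
  have := key i (fun _ => 1) 1 (fun _ => le_rfl) zero_le_one
  simpa [TT] using this

theorem abs_TT_sub_le (h h' : ℕ → ℝ) (i : ℕ) (e : ℝ) (he : ∀ b ≤ i, |h b - h' b| ≤ e) :
    |TT h i - TT h' i| ≤ 2 ^ i * e := by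
  unfold TT
  rw [← sum_sub_distrib]
  have he0 : 0 ≤ e := (abs_nonneg _).trans (he 0 (Nat.zero_le _))
  calc |∑ b ∈ range (i + 1), ((cc i b : ℝ) * h b - (cc i b : ℝ) * h' b)|
      ≤ ∑ b ∈ range (i + 1), (cc i b : ℝ) * e := by
        refine (abs_sum_le_sum_abs _ _).trans (sum_le_sum fun b hb => ?_)
        rw [← mul_sub, abs_mul, Nat.abs_cast]
        exact mul_le_mul_of_nonneg_left (he b (by rw [mem_range] at hb; omega)) (by positivity)
    _ = (∑ b ∈ range (i + 1), (cc i b : ℝ)) * e := by rw [sum_mul]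
    _ ≤ _ := mul_le_mul_of_nonneg_right (sum_cc_le i) he0

theorem add_pow_div (a b : ℝ) (m : ℕ) :
    (a + b) ^ m / m.factorial =
      ∑ x ∈ antidiagonal m, (a ^ x.1 / x.1.factorial) * (b ^ x.2 / x.2.factorial) := by
  rw [(Commute.all a b).add_pow', sum_div]
  refine sum_congr rfl fun x hx => ?_
  rw [Finset.HasAntidiagonal.mem_antidiagonal] at hx
  have h1 : (m.choose x.1 : ℝ) * x.1.factorial * x.2.factorial = m.factorial := by
    rw [← hx]
    have h0 := Nat.add_choose_mul_factorial_mul_factorial x.2 x.1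
    rw [add_comm x.2 x.1, mul_right_comm] at h0
    exact_mod_cast h0
  have h2 : (x.1.factorial : ℝ) ≠ 0 := by positivity
  have h3 : (x.2.factorial : ℝ) ≠ 0 := by positivity
  have h4 : (m.factorial : ℝ) ≠ 0 := by positivity
  rw [nsmul_eq_mul]
  field_simp
  rw [← h1]
  ring

/-- the coefficient of the prime `q` -/
noncomputable def gq (h : ℕ → ℕ → ℝ) (q i : ℕ) : ℝ := (1 / Real.sqrt q) ^ i / i.factorial * TT (h q) i

/-- the normalised moments of the model -/
noncomputable def cL (h : ℕ → ℕ → ℝ) : List ℕ → ℕ → ℝ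
  | [], m => if m = 0 then 1 else 0
  | q :: l, m => ∑ x ∈ antidiagonal m, gq h q x.1 * cL h l x.2

/-- the sum `∑ λ(p) / √p` over a list -/
noncomputable def SL (lam : ℕ → ℝ) (l : List ℕ) : ℝ := (l.map fun p => lam p / Real.sqrt p).sum

/-- the sum `∑ 2 / √p` over a list -/
noncomputable def DL (l : List ℕ) : ℝ := (l.map fun p : ℕ => 2 / Real.sqrt p).sum

theorem DL_nonneg (l : List ℕ) : 0 ≤ DL l := by
  unfold DL
  refine List.sum_nonneg fun x hx => ?_
  rw [List.mem_map] at hx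
  obtain ⟨p, _, rfl⟩ := hx
  positivity

variable {Ω : Type} [Fintype Ω]

theorem expansion (rho : Ω → ℝ) (lam : Ω → ℕ → ℝ) (bad : ℕ)
    (hmul : ∀ f m n, Nat.Coprime m n → lam f (m * n) = lam f m * lam f n)
    (hone : ∀ f, lam f 1 = 1)
    (hhecke : ∀ f p, p.Prime → p ≠ bad → ∀ b, lam f p * lam f (p ^ (b + 1)) =
      lam f (p ^ (b + 2)) + lam f (p ^ b))
    (w : ℕ → ℝ) (h : ℕ → ℕ → ℝ)
    (hw : ∀ q n b, q.Prime → ¬ q ∣ n → w (n * q ^ b) = w n * h q b)
    (X δ : ℝ) (hδ : 0 ≤ δ)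
    (hE : ∀ n : ℕ, 0 < n → (n : ℝ) ≤ X → |∑ f, rho f * lam f n - w n| ≤ δ)
    (y : ℕ) (hy : 1 ≤ y) :
    ∀ (l : List ℕ), l.Nodup → (∀ p ∈ l, p.Prime ∧ p ≠ bad ∧ p ≤ y) → ∀ (n m : ℕ), 0 < n →
      (∀ p ∈ l, ¬ p ∣ n) → (n : ℝ) * (y : ℝ) ^ m ≤ X →
      |∑ f, rho f * (lam f n * (SL (lam f) l ^ m / m.factorial)) - w n * cL h l m| ≤
        δ * (DL l ^ m / m.factorial) := by
  intro l
  induction l with
  | nil =>
    intro _ _ n m hn _ hX
    rcases Nat.eq_zero_or_pos m with rfl | hm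
    · simp only [SL, DL, cL, List.map_nil, List.sum_nil, pow_zero, Nat.factorial_zero,
        Nat.cast_one, div_one, mul_one, if_true]
      exact hE n hn (by simpa using hX)
    · simp only [SL, DL, cL, List.map_nil, List.sum_nil, if_neg hm.ne', zero_pow hm.ne', zero_div,
        mul_zero, sum_const_zero, sub_zero, abs_zero, le_refl]
  | cons q l ih =>
    intro hnd hl n m hn hc hX
    rw [List.nodup_cons] at hnd
    obtain ⟨hq, hqb, hqy⟩ := hl q (List.mem_cons_self)
    have hqn : ¬ q ∣ n := hc q List.mem_cons_self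
    have hl' : ∀ p ∈ l, p.Prime ∧ p ≠ bad ∧ p ≤ y := fun p hp => hl p (List.mem_cons_of_mem _ hp)
    have hc' : ∀ (b : ℕ), ∀ p ∈ l, ¬ p ∣ n * q ^ b := by
      intro b p hp hd
      rcases (hl' p hp).1.dvd_mul.1 hd with h1 | h1
      · exact hc p (List.mem_cons_of_mem _ hp) h1
      · have h2 := (Nat.prime_dvd_prime_iff_eq (hl' p hp).1 hq).1 ((hl' p hp).1.dvd_of_dvd_pow h1)
        subst h2
        exact hnd.1 hp
    have hSL : ∀ f, SL (lam f) (q :: l) = lam f q / Real.sqrt q + SL (lam f) l := fun f => by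
      simp [SL]
    have hDL : DL (q :: l) = 2 / Real.sqrt q + DL l := by simp [DL]
    have e1 : ∀ f, lam f n * (SL (lam f) (q :: l) ^ m / m.factorial) =
        ∑ x ∈ antidiagonal m, (1 / Real.sqrt q) ^ x.1 / x.1.factorial *
          (TT (fun b => lam f (n * q ^ b) * (SL (lam f) l ^ x.2 / x.2.factorial)) x.1) := by
      intro f
      rw [hSL, add_pow_div, mul_sum]
      refine sum_congr rfl fun x _ => ?_
      have h3 : TT (fun b => lam f (n * q ^ b) * (SL (lam f) l ^ x.2 / x.2.factorial)) x.1 =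
          lam f n * (SL (lam f) l ^ x.2 / x.2.factorial) * (lam f q) ^ x.1 := by
        have h4 := TT_pow (fun b => lam f (q ^ b)) (by simpa using hone f) (fun b => by
          simpa using hhecke f q hq hqb b) x.1
        simp only [pow_one] at h4
        rw [h4]
        unfold TT
        rw [mul_sum]
        refine sum_congr rfl fun b _ => ?_
        beta_reduce
        rw [hmul f n (q ^ b) (Nat.Coprime.pow_right _ ((Nat.Prime.coprime_iff_not_dvd hq).2 hqn).symm)]
        ring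
      rw [h3]
      ring
    have e2 : ∑ f, rho f * (lam f n * (SL (lam f) (q :: l) ^ m / m.factorial)) =
        ∑ x ∈ antidiagonal m, (1 / Real.sqrt q) ^ x.1 / x.1.factorial *
          TT (fun b => ∑ f, rho f * (lam f (n * q ^ b) * (SL (lam f) l ^ x.2 / x.2.factorial))) x.1 := by
      simp only [e1, mul_sum]
      rw [sum_comm]
      refine sum_congr rfl fun x _ => ?_
      unfold TT
      simp only [mul_sum]
      rw [sum_comm]
      refine sum_congr rfl fun b _ => sum_congr rfl fun f _ => ?_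
      ring
    have e3 : w n * cL h (q :: l) m = ∑ x ∈ antidiagonal m,
        (1 / Real.sqrt q) ^ x.1 / x.1.factorial *
          TT (fun b => w (n * q ^ b) * cL h l x.2) x.1 := by
      rw [cL, mul_sum]
      refine sum_congr rfl fun x _ => ?_
      unfold gq TT
      simp only [mul_sum, sum_mul]
      refine sum_congr rfl fun b _ => ?_
      rw [hw q n b hq hqn]
      ring
    rw [e2, e3, ← sum_sub_distrib]
    refine (abs_sum_le_sum_abs _ _).trans ?_
    have e4 : δ * (DL (q :: l) ^ m / m.factorial) = ∑ x ∈ antidiagonal m,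
        (1 / Real.sqrt q) ^ x.1 / x.1.factorial * (2 ^ x.1 * (δ * (DL l ^ x.2 / x.2.factorial))) := by
      rw [hDL, add_pow_div, mul_sum]
      refine sum_congr rfl fun x _ => ?_
      rw [div_pow, div_pow, one_pow]
      ring
    rw [e4]
    refine sum_le_sum fun x hx => ?_
    rw [Finset.HasAntidiagonal.mem_antidiagonal] at hx
    rw [← mul_sub, abs_mul, abs_of_nonneg (by positivity : (0 : ℝ) ≤ (1 / Real.sqrt q) ^ x.1 / x.1.factorial)]
    refine mul_le_mul_of_nonneg_left ?_ (by positivity)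
    refine abs_TT_sub_le _ _ _ _ fun b hb => ?_
    refine ih hnd.2 hl' (n * q ^ b) x.2 (Nat.mul_pos hn (pow_pos hq.pos _)) (hc' b) ?_
    have hy1 : (1 : ℝ) ≤ y := by exact_mod_cast hy
    have h5 : ((q : ℝ)) ^ b ≤ (y : ℝ) ^ x.1 := by
      calc ((q : ℝ)) ^ b ≤ (y : ℝ) ^ b :=
            pow_le_pow_left₀ (by positivity) (by exact_mod_cast hqy) _
        _ ≤ _ := pow_le_pow_right₀ hy1 hb
    calc ((n * q ^ b : ℕ) : ℝ) * (y : ℝ) ^ x.2 = (n : ℝ) * ((q : ℝ) ^ b * (y : ℝ) ^ x.2) := by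
          push_cast; ring
      _ ≤ (n : ℝ) * ((y : ℝ) ^ x.1 * (y : ℝ) ^ x.2) := by gcongr
      _ = (n : ℝ) * (y : ℝ) ^ m := by rw [← pow_add, hx]
      _ ≤ X := hX

end Pool.Agent.Q255.CV
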