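import Pool.Agent.Q255.CV.A

/-! # The moments of the model -/

set_option autoImplicit false

namespace Pool.Agent.Q255.CV

open Finset

/-- the sum of `1 / p` over a list -/
noncomputable def VL (l : List ℕ) : ℝ := (l.map fun p : ℕ => 1 / (p : ℝ)).sum

/-- the sum of `p^(-3/2)` over a list -/
noncomputable def WL (l : List ℕ) : ℝ := (l.map fun p : ℕ => (1 / Real.sqrt p) ^ 3).sum

/-- tilted moments -/
noncomputable def ht (q b : ℕ) : ℝ := (1 / Real.sqrt q) ^ b

/-- untilted moments -/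
noncomputable def h0 (_q b : ℕ) : ℝ := if b = 0 then 1 else 0

theorem VL_nonneg (l : List ℕ) : 0 ≤ VL l := by
  unfold VL
  refine List.sum_nonneg fun x hx => ?_
  rw [List.mem_map] at hx
  obtain ⟨p, _, rfl⟩ := hx
  positivity

/-- first moments of the untilted model -/
theorem c0_moments (l : List ℕ) : cL h0 l 0 = 1 ∧ cL h0 l 1 = 0 ∧ cL h0 l 2 = VL l / 2 := by
  induction l with
  | nil => simp [cL, VL]
  | cons q l ih =>
    obtain ⟨i0, i1, i2⟩ := ih
    have g0 : gq h0 q 0 = 1 := by simp [gq, TT, cc, h0]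
    have g1 : gq h0 q 1 = 0 := by simp [gq, TT, cc, h0, sum_range_succ]
    have g2 : gq h0 q 2 = 1 / (q : ℝ) / 2 := by
      have hs : (1 / Real.sqrt (q : ℝ)) ^ 2 = 1 / (q : ℝ) := by
        rw [div_pow, one_pow, Real.sq_sqrt (Nat.cast_nonneg q)]
      unfold gq
      rw [hs]
      simp [TT, cc, h0, sum_range_succ, Nat.factorial]
    refine ⟨?_, ?_, ?_⟩
    · rw [cL, Finset.Nat.sum_antidiagonal_eq_sum_range_succ_mk]
      simp [g0, i0]
    · rw [cL, Finset.Nat.sum_antidiagonal_eq_sum_range_succ_mk]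
      simp [g0, g1, i0, i1, sum_range_succ]
    · rw [cL, Finset.Nat.sum_antidiagonal_eq_sum_range_succ_mk]
      simp only [sum_range_succ, sum_range_zero, Nat.succ_eq_add_one, Nat.reduceAdd, Nat.reduceSub,
        g0, g1, g2, i0, i1, i2, VL, List.map_cons, List.sum_cons]
      ring

theorem ht_abs_le {q : ℕ} (hq : 1 ≤ q) (b : ℕ) : |ht q b| ≤ 1 := by
  unfold ht
  have h1 : (1 : ℝ) ≤ Real.sqrt q := by
    rw [Real.one_le_sqrt]; exact_mod_cast hq
  rw [abs_of_nonneg (by positivity)]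
  exact pow_le_one₀ (by positivity) (by rw [div_le_one (by positivity)]; exact h1)

theorem abs_gq_le {q : ℕ} (hq : 1 ≤ q) (i : ℕ) :
    |gq ht q i| ≤ (2 / Real.sqrt q) ^ i / i.factorial := by
  have h1 := abs_TT_sub_le (ht q) (fun _ => 0) i 1 (fun b _ => by
    rw [sub_zero]; exact ht_abs_le hq b)
  have h2 : TT (fun _ => (0 : ℝ)) i = 0 := by simp [TT]
  rw [h2, sub_zero, mul_one] at h1
  unfold gq
  rw [abs_mul, abs_of_nonneg (by positivity)]
  calc (1 / Real.sqrt q) ^ i / i.factorial * |TT (ht q) i|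
      ≤ (1 / Real.sqrt q) ^ i / i.factorial * 2 ^ i :=
        mul_le_mul_of_nonneg_left h1 (by positivity)
    _ = _ := by rw [div_pow, div_pow, one_pow]; ring

/-- the first coefficients -/
theorem gq_small (q : ℕ) : gq ht q 0 = 1 ∧ gq ht q 1 = 1 / (q : ℝ) ∧
    gq ht q 2 = 1 / (q : ℝ) / 2 * (1 + 1 / (q : ℝ)) := by
  have hs : (1 / Real.sqrt (q : ℝ)) ^ 2 = 1 / (q : ℝ) := by
    rw [div_pow, one_pow, Real.sq_sqrt (Nat.cast_nonneg q)]
  refine ⟨?_, ?_, ?_⟩
  · simp [gq, TT, cc, ht]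
  · have e : TT (ht q) 1 = 1 / Real.sqrt (q : ℝ) := by
      have c0 : cc 1 0 = 0 := rfl
      have c1 : cc 1 1 = 1 := rfl
      simp only [TT, sum_range_succ, sum_range_zero, c0, c1, ht]
      push_cast
      ring
    unfold gq
    rw [e, ← hs]
    simp only [Nat.factorial]
    push_cast
    ring
  · unfold gq
    have e : TT (ht q) 2 = 1 + (1 / Real.sqrt (q : ℝ)) ^ 2 := by
      have c0 : cc 2 0 = 1 := rfl
      have c1 : cc 2 1 = 0 := rfl
      have c2 : cc 2 2 = 1 := rfl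
      simp only [TT, sum_range_succ, sum_range_zero, c0, c1, c2, ht]
      push_cast
      ring
    rw [e, hs]
    simp only [Nat.factorial]
    push_cast
    ring

/-- tails of the exponential series -/
theorem exp_tail (x : ℝ) (hx : 0 ≤ x) (k : ℕ) :
    HasSum (fun i : ℕ => x ^ i / i.factorial) (Real.exp x) ∧
    ∑' i : ℕ, x ^ (i + k) / (i + k).factorial ≤ x ^ k * Real.exp x := by
  have h1 : HasSum (fun i : ℕ => x ^ i / i.factorial) (Real.exp x) := by
    have := NormedSpace.expSeries_div_hasSum_exp x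
    rwa [← Real.exp_eq_exp_ℝ] at this
  refine ⟨h1, ?_⟩
  have h2 : ∀ i : ℕ, x ^ (i + k) / (i + k).factorial ≤ x ^ k * (x ^ i / i.factorial) := by
    intro i
    rw [pow_add, mul_comm (x ^ i), mul_div_assoc]
    refine mul_le_mul_of_nonneg_left ?_ (by positivity)
    refine div_le_div_of_nonneg_left (by positivity) (by positivity) ?_
    exact_mod_cast Nat.factorial_le (by omega)
  have h3 : Summable fun i : ℕ => x ^ (i + k) / (i + k).factorial := (summable_nat_add_iff k).2 h1.summable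
  calc ∑' i : ℕ, x ^ (i + k) / (i + k).factorial ≤ ∑' i : ℕ, x ^ k * (x ^ i / i.factorial) :=
        h3.tsum_le_tsum h2 (h1.summable.mul_left _)
    _ = _ := by rw [tsum_mul_left, h1.tsum_eq]

/-- the absolute generating function of one prime -/
theorem gq_abs_sum {r : ℝ} (hr : 1 ≤ r) : ∃ C : ℝ, 0 < C ∧ ∀ q : ℕ, 1 ≤ q →
    Summable (fun i => |gq ht q i| * r ^ i) ∧
    ∑' i, |gq ht q i| * r ^ i ≤ Real.exp (C * (1 / q)) := by
  refine ⟨r + (2 * r) ^ 2 * Real.exp (2 * r), by positivity, fun q hq => ?_⟩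
  have hq0 : (0 : ℝ) < q := by exact_mod_cast hq
  have h1 : (1 : ℝ) ≤ Real.sqrt q := by
    rw [Real.one_le_sqrt]; exact_mod_cast hq
  set x : ℝ := 2 * r / Real.sqrt q with hx
  have hx0 : 0 ≤ x := by positivity
  have hxr : x ≤ 2 * r := div_le_self (by positivity) h1
  have hx2 : x ^ 2 = (2 * r) ^ 2 * (1 / q) := by
    rw [hx, div_pow, Real.sq_sqrt hq0.le]; ring
  have hb : ∀ i, |gq ht q i| * r ^ i ≤ x ^ i / i.factorial := by
    intro i
    calc |gq ht q i| * r ^ i ≤ (2 / Real.sqrt q) ^ i / i.factorial * r ^ i :=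
          mul_le_mul_of_nonneg_right (abs_gq_le hq i) (by positivity)
      _ = x ^ i / i.factorial := by rw [hx, div_pow, div_pow, mul_pow]; ring
  obtain ⟨h2, h3⟩ := exp_tail x hx0 2
  have hs : Summable (fun i => |gq ht q i| * r ^ i) :=
    Summable.of_nonneg_of_le (fun i => by positivity) hb h2.summable
  refine ⟨hs, ?_⟩
  rw [← hs.sum_add_tsum_nat_add 2]
  have h4 : ∑' i, |gq ht q (i + 2)| * r ^ (i + 2) ≤ x ^ 2 * Real.exp x :=
    (((summable_nat_add_iff 2).2 hs).tsum_le_tsum (fun i => hb (i + 2))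
      ((summable_nat_add_iff 2).2 h2.summable)).trans h3
  have h5 : ∑ i ∈ range 2, |gq ht q i| * r ^ i = 1 + r * (1 / q) := by
    rw [sum_range_succ, sum_range_succ, sum_range_zero, (gq_small q).1, (gq_small q).2.1,
      abs_of_nonneg (by positivity : (0 : ℝ) ≤ 1 / (q : ℝ))]
    simp
    ring
  rw [h5]
  have h6 : x ^ 2 * Real.exp x ≤ (2 * r) ^ 2 * Real.exp (2 * r) * (1 / q) := by
    rw [hx2]
    have := Real.exp_le_exp.2 hxr
    calc (2 * r) ^ 2 * (1 / q) * Real.exp x ≤ (2 * r) ^ 2 * (1 / q) * Real.exp (2 * r) := by gcongr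
      _ = _ := by ring
  have h7 := Real.add_one_le_exp ((r + (2 * r) ^ 2 * Real.exp (2 * r)) * (1 / (q : ℝ)))
  nlinarith [h4, h6, h7]

/-- the alternating generating function of one prime -/
theorem gq_alt_sum {q : ℕ} (hq : 2 ≤ q) :
    |∑' i, (-1 : ℝ) ^ i * gq ht q i| ≤ Real.exp (-(1 / 2) * (1 / q) + 70 * (1 / Real.sqrt q) ^ 3) := by
  obtain ⟨C, _, hC⟩ := gq_abs_sum (le_refl (1 : ℝ))
  have hs0 := (hC q (by omega)).1
  simp only [one_pow, mul_one] at hs0
  have hs : Summable fun i => (-1 : ℝ) ^ i * gq ht q i := by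
    refine Summable.of_norm_bounded hs0 fun i => ?_
    rw [norm_mul, norm_pow, norm_neg, norm_one, one_pow, one_mul, Real.norm_eq_abs]
  have hq0 : (0 : ℝ) < q := by exact_mod_cast (by omega : 0 < q)
  have h1 : (1 : ℝ) ≤ Real.sqrt q := by
    rw [Real.one_le_sqrt]; exact_mod_cast (by omega : 1 ≤ q)
  set x : ℝ := 2 / Real.sqrt q with hx
  have hx0 : 0 ≤ x := by positivity
  have hx2 : x ≤ 2 := div_le_self (by norm_num) h1
  obtain ⟨h2, h3⟩ := exp_tail x hx0 3
  have hs3 : Summable fun i => |gq ht q i| := hs0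
  rw [← hs.sum_add_tsum_nat_add 3]
  have hb : ∀ i, |(-1 : ℝ) ^ (i + 3) * gq ht q (i + 3)| ≤ x ^ (i + 3) / (i + 3).factorial := by
    intro i
    rw [abs_mul, abs_pow, abs_neg, abs_one, one_pow, one_mul]
    exact abs_gq_le (by omega) _
  have h4 : |∑' i, (-1 : ℝ) ^ (i + 3) * gq ht q (i + 3)| ≤ x ^ 3 * Real.exp x := by
    have hsa : Summable fun i => ‖(-1 : ℝ) ^ (i + 3) * gq ht q (i + 3)‖ :=
      Summable.of_nonneg_of_le (fun i => norm_nonneg _) (fun i => by
        rw [Real.norm_eq_abs]; exact hb i) ((summable_nat_add_iff 3).2 h2.summable)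
    rw [← Real.norm_eq_abs]
    refine (norm_tsum_le_tsum_norm hsa).trans ((hsa.tsum_le_tsum (fun i => ?_)
      ((summable_nat_add_iff 3).2 h2.summable)).trans h3)
    rw [Real.norm_eq_abs]
    exact hb i
  have h5 : ∑ i ∈ range 3, (-1 : ℝ) ^ i * gq ht q i =
      1 - 1 / (q : ℝ) + 1 / (q : ℝ) / 2 * (1 + 1 / (q : ℝ)) := by
    rw [sum_range_succ, sum_range_succ, sum_range_succ, sum_range_zero, (gq_small q).1,
      (gq_small q).2.1, (gq_small q).2.2]
    ring
  rw [h5]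
  have hs' : (1 / Real.sqrt (q : ℝ)) ^ 2 = 1 / (q : ℝ) := by
    rw [div_pow, one_pow, Real.sq_sqrt (Nat.cast_nonneg q)]
  set a : ℝ := 1 / Real.sqrt (q : ℝ) with ha
  have ha0 : 0 < a := by positivity
  have ha1 : a ≤ 1 := by rw [ha, div_le_one (by positivity)]; exact h1
  have hxa : x = 2 * a := by rw [hx, ha]; ring
  rw [← hs']
  have he : Real.exp x ≤ 8 := by
    calc Real.exp x ≤ Real.exp 2 := Real.exp_le_exp.2 hx2
      _ = Real.exp 1 * Real.exp 1 := by rw [← Real.exp_add]; norm_num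
      _ ≤ 2.7182818286 * 2.7182818286 := by
          have := Real.exp_one_lt_d9
          have h0 := Real.exp_pos 1
          nlinarith
      _ ≤ 8 := by norm_num
  have h6 : x ^ 3 * Real.exp x ≤ 64 * a ^ 3 := by
    rw [hxa] at he ⊢
    have : (0 : ℝ) ≤ a ^ 3 := by positivity
    nlinarith
  have h7 := Real.add_one_le_exp (-(1 / 2) * a ^ 2 + 70 * a ^ 3)
  have h8 : a ^ 4 ≤ a ^ 3 := pow_le_pow_of_le_one ha0.le ha1 (by norm_num)
  have h9 : (0 : ℝ) ≤ a ^ 3 := by positivity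
  have h10 := abs_le.1 h4
  have ha2 : a ^ 2 ≤ 1 := pow_le_one₀ ha0.le ha1
  have ha4 : (0 : ℝ) ≤ a ^ 4 := by positivity
  have hm : a ^ 2 / 2 * (1 + a ^ 2) = a ^ 2 / 2 + a ^ 4 / 2 := by ring
  rw [hm, abs_le]
  constructor
  · linarith [h10.1]
  · linarith [h10.2]

/-- the absolute generating function of the model -/
theorem cL_abs_sum {r : ℝ} (hr : 1 ≤ r) : ∃ C : ℝ, 0 < C ∧ ∀ l : List ℕ, (∀ q ∈ l, 1 ≤ q) →
    Summable (fun m => |cL ht l m| * r ^ m) ∧
    ∑' m, |cL ht l m| * r ^ m ≤ Real.exp (C * VL l) := by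
  obtain ⟨C, hC0, hC⟩ := gq_abs_sum hr
  refine ⟨C, hC0, fun l => ?_⟩
  induction l with
  | nil =>
    intro _
    have e : (fun m => |cL ht [] m| * r ^ m) = fun m => if m = 0 then (1 : ℝ) else 0 := by
      funext m
      by_cases hm : m = 0 <;> simp [cL, hm]
    rw [e]
    refine ⟨(hasSum_ite_eq 0 (1 : ℝ)).summable, ?_⟩
    rw [(hasSum_ite_eq 0 (1 : ℝ)).tsum_eq]
    simp [VL]
  | cons q l ih =>
    intro hl
    obtain ⟨s1, t1⟩ := hC q (hl q List.mem_cons_self)
    obtain ⟨s2, t2⟩ := ih (fun p hp => hl p (List.mem_cons_of_mem _ hp))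
    have s1' : Summable fun i => ‖|gq ht q i| * r ^ i‖ := by
      refine s1.congr fun i => ?_
      rw [Real.norm_of_nonneg (by positivity)]
    have s2' : Summable fun i => ‖|cL ht l i| * r ^ i‖ := by
      refine s2.congr fun i => ?_
      rw [Real.norm_of_nonneg (by positivity)]
    have s3 := summable_norm_sum_mul_antidiagonal_of_summable_norm s1' s2'
    have t3 := tsum_mul_tsum_eq_tsum_sum_antidiagonal_of_summable_norm s1' s2'
    have s3' : Summable fun n => ∑ kl ∈ antidiagonal n, (|gq ht q kl.1| * r ^ kl.1) * (|cL ht l kl.2| * r ^ kl.2) :=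
      s3.of_norm
    have hb : ∀ m, |cL ht (q :: l) m| * r ^ m ≤
        ∑ kl ∈ antidiagonal m, (|gq ht q kl.1| * r ^ kl.1) * (|cL ht l kl.2| * r ^ kl.2) := by
      intro m
      rw [cL]
      calc |∑ x ∈ antidiagonal m, gq ht q x.1 * cL ht l x.2| * r ^ m
          ≤ (∑ x ∈ antidiagonal m, |gq ht q x.1 * cL ht l x.2|) * r ^ m :=
            mul_le_mul_of_nonneg_right (abs_sum_le_sum_abs _ _) (by positivity)
        _ = _ := by
            rw [sum_mul]
            refine sum_congr rfl fun x hx => ?_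
            rw [Finset.HasAntidiagonal.mem_antidiagonal] at hx
            rw [← hx, pow_add, abs_mul]
            ring
    have s4 : Summable (fun m => |cL ht (q :: l) m| * r ^ m) :=
      Summable.of_nonneg_of_le (fun i => by positivity) hb s3'
    refine ⟨s4, ?_⟩
    have hV : VL (q :: l) = 1 / (q : ℝ) + VL l := by simp [VL]
    rw [hV, mul_add, Real.exp_add]
    calc ∑' m, |cL ht (q :: l) m| * r ^ m
        ≤ ∑' n, ∑ kl ∈ antidiagonal n, (|gq ht q kl.1| * r ^ kl.1) * (|cL ht l kl.2| * r ^ kl.2) :=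
          s4.tsum_le_tsum hb s3'
      _ = (∑' i, |gq ht q i| * r ^ i) * ∑' i, |cL ht l i| * r ^ i := t3.symm
      _ ≤ _ := mul_le_mul t1 t2 (tsum_nonneg fun i => by positivity) (Real.exp_pos _).le

/-- the alternating generating function of the model -/
theorem cL_alt_prod (l : List ℕ) (hl : ∀ q ∈ l, 1 ≤ q) :
    Summable (fun m => ‖(-1 : ℝ) ^ m * cL ht l m‖) ∧
    ∑' m, (-1 : ℝ) ^ m * cL ht l m = (l.map fun q => ∑' i, (-1 : ℝ) ^ i * gq ht q i).prod := by
  obtain ⟨C, _, hC⟩ := cL_abs_sum (le_refl (1 : ℝ))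
  obtain ⟨C', _, hC'⟩ := gq_abs_sum (le_refl (1 : ℝ))
  simp only [one_pow, mul_one] at hC hC'
  have hn : ∀ l : List ℕ, (∀ q ∈ l, 1 ≤ q) → Summable (fun m => ‖(-1 : ℝ) ^ m * cL ht l m‖) := by
    intro l hl
    refine ((hC l hl).1).congr fun m => ?_
    rw [norm_mul, norm_pow, norm_neg, norm_one, one_pow, one_mul, Real.norm_eq_abs]
  refine ⟨hn l hl, ?_⟩
  induction l with
  | nil =>
    have e : (fun m => (-1 : ℝ) ^ m * cL ht [] m) = fun m => if m = 0 then (1 : ℝ) else 0 := by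
      funext m
      by_cases hm : m = 0 <;> simp [cL, hm]
    rw [e, (hasSum_ite_eq 0 (1 : ℝ)).tsum_eq]
    simp
  | cons q l ih =>
    have hl' : ∀ p ∈ l, 1 ≤ p := fun p hp => hl p (List.mem_cons_of_mem _ hp)
    have h1 := ih hl'
    have s1 : Summable fun i => ‖(-1 : ℝ) ^ i * gq ht q i‖ := by
      refine ((hC' q (hl q List.mem_cons_self)).1).congr fun m => ?_
      rw [norm_mul, norm_pow, norm_neg, norm_one, one_pow, one_mul, Real.norm_eq_abs]
    have t3 := tsum_mul_tsum_eq_tsum_sum_antidiagonal_of_summable_norm s1 (hn l hl')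
    rw [List.map_cons, List.prod_cons, ← h1, t3]
    refine tsum_congr fun m => ?_
    rw [cL, mul_sum]
    refine sum_congr rfl fun x hx => ?_
    rw [Finset.HasAntidiagonal.mem_antidiagonal] at hx
    rw [← hx, pow_add]
    ring

theorem list_prod_le (l : List ℕ) (F : ℕ → ℝ) (a b : ℝ) (hl : ∀ q ∈ l, |F q| ≤
    Real.exp (-a * (1 / q) + b * (1 / Real.sqrt q) ^ 3)) :
    |(l.map F).prod| ≤ Real.exp (-a * VL l + b * WL l) := by
  induction l with
  | nil => simp [VL, WL]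
  | cons q l ih =>
    have hV : VL (q :: l) = 1 / (q : ℝ) + VL l := by simp [VL]
    have hW : WL (q :: l) = (1 / Real.sqrt (q : ℝ)) ^ 3 + WL l := by simp [WL]
    rw [List.map_cons, List.prod_cons, hV, hW, abs_mul]
    have h1 := ih (fun p hp => hl p (List.mem_cons_of_mem _ hp))
    have h2 := hl q List.mem_cons_self
    calc |F q| * |(l.map F).prod| ≤ Real.exp (-a * (1 / q) + b * (1 / Real.sqrt q) ^ 3) *
          Real.exp (-a * VL l + b * WL l) := mul_le_mul h2 h1 (abs_nonneg _) (Real.exp_pos _).le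
      _ = _ := by rw [← Real.exp_add]; ring_nf

/-- the main term: the alternating sum up to `2 K` -/
theorem main_term : ∃ C : ℝ, 0 < C ∧ ∀ (l : List ℕ), (∀ q ∈ l, 2 ≤ q) → ∀ K : ℕ,
    C * VL l ≤ K → ∑ m ∈ range (2 * K + 1), (-1 : ℝ) ^ m * cL ht l m ≤
      Real.exp (-(1 / 2) * VL l + 70 * WL l) + Real.exp (-K) := by
  obtain ⟨C, hC0, hC⟩ := cL_abs_sum (r := Real.exp 1) (by
    have := Real.add_one_le_exp (1 : ℝ); linarith)
  refine ⟨C, hC0, fun l hl K hK => ?_⟩
  have hl1 : ∀ q ∈ l, 1 ≤ q := fun q hq => by have := hl q hq; omega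
  obtain ⟨s1, t1⟩ := hC l hl1
  obtain ⟨s2, t2⟩ := cL_alt_prod l hl1
  have h1 : ∑' m, (-1 : ℝ) ^ m * cL ht l m ≤ Real.exp (-(1 / 2) * VL l + 70 * WL l) := by
    rw [t2]
    refine (le_abs_self _).trans (list_prod_le l _ (1 / 2) 70 fun q hq => ?_)
    have := gq_alt_sum (hl q hq)
    simpa using this
  have h2 := s2.of_norm.sum_add_tsum_nat_add (2 * K + 1)
  have h3 : |∑' m, (-1 : ℝ) ^ (m + (2 * K + 1)) * cL ht l (m + (2 * K + 1))| ≤ Real.exp (-K) := by
    have s3 : Summable fun m => ‖(-1 : ℝ) ^ (m + (2 * K + 1)) * cL ht l (m + (2 * K + 1))‖ :=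
      (summable_nat_add_iff (2 * K + 1)).2 s2
    have s4 : Summable fun m => |cL ht l (m + (2 * K + 1))| * Real.exp 1 ^ (m + (2 * K + 1)) :=
      (summable_nat_add_iff (2 * K + 1)).2 s1
    have hb : ∀ m, ‖(-1 : ℝ) ^ (m + (2 * K + 1)) * cL ht l (m + (2 * K + 1))‖ ≤
        Real.exp (-(2 * K)) * (|cL ht l (m + (2 * K + 1))| * Real.exp 1 ^ (m + (2 * K + 1))) := by
      intro m
      rw [norm_mul, norm_pow, norm_neg, norm_one, one_pow, one_mul, Real.norm_eq_abs]
      have h5 : 1 ≤ Real.exp (-(2 * (K : ℝ))) * Real.exp 1 ^ (m + (2 * K + 1)) := by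
        rw [← Real.exp_nat_mul, ← Real.exp_add, Real.one_le_exp_iff]
        push_cast
        have : (0 : ℝ) ≤ m := by positivity
        linarith
      calc |cL ht l (m + (2 * K + 1))| = |cL ht l (m + (2 * K + 1))| * 1 := by ring
        _ ≤ |cL ht l (m + (2 * K + 1))| * (Real.exp (-(2 * (K : ℝ))) * Real.exp 1 ^ (m + (2 * K + 1))) :=
            mul_le_mul_of_nonneg_left h5 (abs_nonneg _)
        _ = _ := by ring
    rw [← Real.norm_eq_abs]
    calc ‖∑' m, (-1 : ℝ) ^ (m + (2 * K + 1)) * cL ht l (m + (2 * K + 1))‖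
        ≤ ∑' m, ‖(-1 : ℝ) ^ (m + (2 * K + 1)) * cL ht l (m + (2 * K + 1))‖ := norm_tsum_le_tsum_norm s3
      _ ≤ ∑' m, Real.exp (-(2 * K)) * (|cL ht l (m + (2 * K + 1))| * Real.exp 1 ^ (m + (2 * K + 1))) :=
          s3.tsum_le_tsum hb (s4.mul_left _)
      _ = Real.exp (-(2 * K)) * ∑' m, |cL ht l (m + (2 * K + 1))| * Real.exp 1 ^ (m + (2 * K + 1)) := by
          rw [tsum_mul_left]
      _ ≤ Real.exp (-(2 * K)) * Real.exp (C * VL l) := by
          refine mul_le_mul_of_nonneg_left (le_trans ?_ t1) (Real.exp_pos _).le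
          have h6 := s1.sum_add_tsum_nat_add (2 * K + 1)
          have h7 : 0 ≤ ∑ i ∈ range (2 * K + 1), |cL ht l i| * Real.exp 1 ^ i :=
            sum_nonneg fun i _ => by positivity
          linarith
      _ ≤ Real.exp (-K) := by
          rw [← Real.exp_add, Real.exp_le_exp]
          linarith
  have h4 := (abs_le.1 h3).1
  linarith

end Pool.Agent.Q255.CV
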