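import Pool.Agent.Q255.CV.C

/-! # The generating functions of the model at other points -/

set_option autoImplicit false

namespace Pool.Agent.Q255.CV

open Finset

/-- the properties of the local moments: `α = 1` tilted, `α = 0` untilted -/
structure Nice (h : ℕ → ℕ → ℝ) (α : ℝ) : Prop where
  a0 : 0 ≤ α
  a1 : α ≤ 1
  g0 : ∀ q, gq h q 0 = 1
  g1 : ∀ q, gq h q 1 = α * (1 / (q : ℝ))
  g2 : ∀ q, gq h q 2 = 1 / (q : ℝ) / 2 * (1 + α * (1 / (q : ℝ)))
  le : ∀ q, 1 ≤ q → ∀ i, |gq h q i| ≤ (2 / Real.sqrt q) ^ i / i.factorial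

theorem nice_ht : Nice ht 1 where
  a0 := zero_le_one
  a1 := le_rfl
  g0 q := (gq_small q).1
  g1 q := by rw [(gq_small q).2.1, one_mul]
  g2 q := by rw [(gq_small q).2.2, one_mul]
  le q hq i := abs_gq_le hq i

theorem nice_h0 : Nice h0 0 where
  a0 := le_rfl
  a1 := zero_le_one
  g0 q := by simp [gq, TT, cc, h0]
  g1 q := by simp [gq, TT, cc, h0, sum_range_succ]
  g2 q := by
    have hs : (1 / Real.sqrt (q : ℝ)) ^ 2 = 1 / (q : ℝ) := by
      rw [div_pow, one_pow, Real.sq_sqrt (Nat.cast_nonneg q)]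
    unfold gq
    rw [hs]
    simp [TT, cc, h0, sum_range_succ, Nat.factorial]
  le q hq i := by
    have h1 := abs_TT_sub_le (h0 q) (fun _ => 0) i 1 (fun b _ => by
      rw [sub_zero]
      unfold h0
      split_ifs <;> simp)
    have h2 : TT (fun _ => (0 : ℝ)) i = 0 := by simp [TT]
    rw [h2, sub_zero, mul_one] at h1
    unfold gq
    rw [abs_mul, abs_of_nonneg (by positivity)]
    calc (1 / Real.sqrt q) ^ i / i.factorial * |TT (h0 q) i|
        ≤ (1 / Real.sqrt q) ^ i / i.factorial * 2 ^ i :=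
          mul_le_mul_of_nonneg_left h1 (by positivity)
      _ = _ := by rw [div_pow, div_pow, one_pow]; ring

theorem nabs_sum {r : ℝ} (hr : 1 ≤ r) : ∃ C : ℝ, 0 < C ∧ ∀ (h : ℕ → ℕ → ℝ) (α : ℝ), Nice h α →
    ∀ q : ℕ, 1 ≤ q → Summable (fun i => |gq h q i| * r ^ i) ∧
    ∑' i, |gq h q i| * r ^ i ≤ Real.exp (C * (1 / q)) := by
  refine ⟨r + (2 * r) ^ 2 * Real.exp (2 * r), by positivity, fun h α hn q hq => ?_⟩
  have hq0 : (0 : ℝ) < q := by exact_mod_cast hq
  have h1 : (1 : ℝ) ≤ Real.sqrt q := by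
    rw [Real.one_le_sqrt]; exact_mod_cast hq
  set x : ℝ := 2 * r / Real.sqrt q with hx
  have hx0 : 0 ≤ x := by positivity
  have hxr : x ≤ 2 * r := div_le_self (by positivity) h1
  have hx2 : x ^ 2 = (2 * r) ^ 2 * (1 / q) := by
    rw [hx, div_pow, Real.sq_sqrt hq0.le]; ring
  have hb : ∀ i, |gq h q i| * r ^ i ≤ x ^ i / i.factorial := by
    intro i
    calc |gq h q i| * r ^ i ≤ (2 / Real.sqrt q) ^ i / i.factorial * r ^ i :=
          mul_le_mul_of_nonneg_right (hn.le q hq i) (by positivity)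
      _ = x ^ i / i.factorial := by rw [hx, div_pow, div_pow, mul_pow]; ring
  obtain ⟨h2, h3⟩ := exp_tail x hx0 2
  have hs : Summable (fun i => |gq h q i| * r ^ i) :=
    Summable.of_nonneg_of_le (fun i => by positivity) hb h2.summable
  refine ⟨hs, ?_⟩
  rw [← hs.sum_add_tsum_nat_add 2]
  have h4 : ∑' i, |gq h q (i + 2)| * r ^ (i + 2) ≤ x ^ 2 * Real.exp x :=
    (((summable_nat_add_iff 2).2 hs).tsum_le_tsum (fun i => hb (i + 2))
      ((summable_nat_add_iff 2).2 h2.summable)).trans h3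
  have h5 : ∑ i ∈ range 2, |gq h q i| * r ^ i ≤ 1 + r * (1 / q) := by
    rw [sum_range_succ, sum_range_succ, sum_range_zero, hn.g0, hn.g1,
      abs_of_nonneg (mul_nonneg hn.a0 (by positivity) : (0 : ℝ) ≤ α * (1 / (q : ℝ)))]
    have h6 : α * (1 / (q : ℝ)) ≤ 1 * (1 / (q : ℝ)) := mul_le_mul_of_nonneg_right hn.a1 (by positivity)
    have h7 := mul_le_mul_of_nonneg_left h6 (by linarith : (0 : ℝ) ≤ r)
    simp only [abs_one, pow_zero, mul_one, zero_add, pow_one]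
    linarith
  have h6 : x ^ 2 * Real.exp x ≤ (2 * r) ^ 2 * Real.exp (2 * r) * (1 / q) := by
    rw [hx2]
    have := Real.exp_le_exp.2 hxr
    calc (2 * r) ^ 2 * (1 / q) * Real.exp x ≤ (2 * r) ^ 2 * (1 / q) * Real.exp (2 * r) := by gcongr
      _ = _ := by ring
  have h7 := Real.add_one_le_exp ((r + (2 * r) ^ 2 * Real.exp (2 * r)) * (1 / (q : ℝ)))
  linarith [h4, h5, h6, h7]

theorem ngen_sum {h : ℕ → ℕ → ℝ} {α : ℝ} (hn : Nice h α) {q : ℕ} (hq : 2 ≤ q) {z : ℝ} (hz : |z| ≤ 1) :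
    |∑' i, z ^ i * gq h q i| ≤
      Real.exp ((α * z + z ^ 2 / 2) * (1 / q) + 70 * (1 / Real.sqrt q) ^ 3) := by
  obtain ⟨C, _, hC⟩ := nabs_sum (le_refl (1 : ℝ))
  have hs0 := (hC h α hn q (by omega)).1
  simp only [one_pow, mul_one] at hs0
  have hzi : ∀ i, |z| ^ i ≤ 1 := fun i => pow_le_one₀ (abs_nonneg z) hz
  have hs : Summable fun i => z ^ i * gq h q i := by
    refine Summable.of_norm_bounded hs0 fun i => ?_
    rw [norm_mul, norm_pow, Real.norm_eq_abs, Real.norm_eq_abs]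
    exact mul_le_of_le_one_left (abs_nonneg _) (hzi i)
  have hq0 : (0 : ℝ) < q := by exact_mod_cast (by omega : 0 < q)
  have h1 : (1 : ℝ) ≤ Real.sqrt q := by
    rw [Real.one_le_sqrt]; exact_mod_cast (by omega : 1 ≤ q)
  set x : ℝ := 2 / Real.sqrt q with hx
  have hx0 : 0 ≤ x := by positivity
  have hx2 : x ≤ 2 := div_le_self (by norm_num) h1
  obtain ⟨h2, h3⟩ := exp_tail x hx0 3
  rw [← hs.sum_add_tsum_nat_add 3]
  have hb : ∀ i, |z ^ (i + 3) * gq h q (i + 3)| ≤ x ^ (i + 3) / (i + 3).factorial := by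
    intro i
    rw [abs_mul, abs_pow]
    exact (mul_le_of_le_one_left (abs_nonneg _) (hzi _)).trans (hn.le q (by omega) _)
  have h4 : |∑' i, z ^ (i + 3) * gq h q (i + 3)| ≤ x ^ 3 * Real.exp x := by
    have hsa : Summable fun i => ‖z ^ (i + 3) * gq h q (i + 3)‖ :=
      Summable.of_nonneg_of_le (fun i => norm_nonneg _) (fun i => by
        rw [Real.norm_eq_abs]; exact hb i) ((summable_nat_add_iff 3).2 h2.summable)
    rw [← Real.norm_eq_abs]
    refine (norm_tsum_le_tsum_norm hsa).trans ((hsa.tsum_le_tsum (fun i => ?_)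
      ((summable_nat_add_iff 3).2 h2.summable)).trans h3)
    rw [Real.norm_eq_abs]
    exact hb i
  have h5 : ∑ i ∈ range 3, z ^ i * gq h q i =
      1 + z * (α * (1 / (q : ℝ))) + z ^ 2 * (1 / (q : ℝ) / 2 * (1 + α * (1 / (q : ℝ)))) := by
    rw [sum_range_succ, sum_range_succ, sum_range_succ, sum_range_zero, hn.g0, hn.g1, hn.g2]
    ring
  rw [h5]
  have hs' : (1 / Real.sqrt (q : ℝ)) ^ 2 = 1 / (q : ℝ) := by
    rw [div_pow, one_pow, Real.sq_sqrt (Nat.cast_nonneg q)]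
  set a : ℝ := 1 / Real.sqrt (q : ℝ) with ha
  have ha0 : 0 < a := by positivity
  have ha1 : a ≤ 1 := by rw [ha, div_le_one (by positivity)]; exact h1
  have hxa : x = 2 * a := by rw [hx, ha]; ring
  rw [← hs']
  have he : Real.exp x ≤ 8 := by
    calc Real.exp x ≤ Real.exp 2 := Real.exp_le_exp.2 hx2
      _ = Real.exp 1 * Real.exp 1 := by rw [← Real.exp_add]; norm_num
      _ ≤ 2.7182818286 * 2.7182818286 := by
          have := Real.exp_one_lt_d9
          have h0 := Real.exp_pos 1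
          exact mul_le_mul this.le this.le h0.le (by norm_num)
      _ ≤ 8 := by norm_num
  have h6 : x ^ 3 * Real.exp x ≤ 64 * a ^ 3 := by
    rw [hxa] at he ⊢
    calc (2 * a) ^ 3 * Real.exp (2 * a) ≤ (2 * a) ^ 3 * 8 := mul_le_mul_of_nonneg_left he (by positivity)
      _ = 64 * a ^ 3 := by ring
  have h7 := Real.add_one_le_exp ((α * z + z ^ 2 / 2) * a ^ 2 + 70 * a ^ 3)
  have h8 : a ^ 4 ≤ a ^ 3 := pow_le_pow_of_le_one ha0.le ha1 (by norm_num)
  have h9 : (0 : ℝ) ≤ a ^ 3 := by positivity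
  have h10 := abs_le.1 h4
  have ha2 : a ^ 2 ≤ 1 := pow_le_one₀ ha0.le ha1
  have ha2' : (0 : ℝ) ≤ a ^ 2 := by positivity
  have ha4 : (0 : ℝ) ≤ a ^ 4 := by positivity
  have hz2 : z ^ 2 ≤ 1 := by
    have := hzi 2
    rwa [sq_abs] at this
  have hz3 := abs_le.1 hz
  have hαz : α * z ≤ 1 ∧ -1 ≤ α * z := by
    have h11 : |α * z| ≤ 1 := by
      rw [abs_mul, abs_of_nonneg hn.a0]
      exact mul_le_one₀ hn.a1 (abs_nonneg _) hz
    exact ⟨(abs_le.1 h11).2, (abs_le.1 h11).1⟩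
  have hαz2 : z ^ 2 * α ≤ 1 ∧ 0 ≤ z ^ 2 * α :=
    ⟨mul_le_one₀ hz2 hn.a0 hn.a1, mul_nonneg (sq_nonneg _) hn.a0⟩
  have e1 : 1 + z * (α * a ^ 2) + z ^ 2 * (a ^ 2 / 2 * (1 + α * a ^ 2)) =
      1 + (α * z) * a ^ 2 + z ^ 2 * a ^ 2 / 2 + (z ^ 2 * α) * a ^ 4 / 2 := by ring
  have e2 : (α * z + z ^ 2 / 2) * a ^ 2 = (α * z) * a ^ 2 + z ^ 2 * a ^ 2 / 2 := by ring
  have h12 : (z ^ 2 * α) * a ^ 4 ≤ 1 * a ^ 4 := mul_le_mul_of_nonneg_right hαz2.1 ha4
  have h13 : 0 ≤ (z ^ 2 * α) * a ^ 4 := mul_nonneg hαz2.2 ha4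
  have h14 : -1 * a ^ 2 ≤ (α * z) * a ^ 2 := mul_le_mul_of_nonneg_right hαz.2 ha2'
  have h15 : 0 ≤ z ^ 2 * a ^ 2 := by positivity
  rw [e2] at h7 ⊢
  rw [e1, abs_le]
  constructor
  · linarith [h10.1]
  · linarith [h10.2]

theorem nabs_list {r : ℝ} (hr : 1 ≤ r) : ∃ C : ℝ, 0 < C ∧ ∀ (h : ℕ → ℕ → ℝ) (α : ℝ), Nice h α →
    ∀ l : List ℕ, (∀ q ∈ l, 1 ≤ q) →
    Summable (fun m => |cL h l m| * r ^ m) ∧
    ∑' m, |cL h l m| * r ^ m ≤ Real.exp (C * VL l) := by
  obtain ⟨C, hC0, hC⟩ := nabs_sum hr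
  refine ⟨C, hC0, fun h α hn l => ?_⟩
  induction l with
  | nil =>
    intro _
    have e : (fun m => |cL h [] m| * r ^ m) = fun m => if m = 0 then (1 : ℝ) else 0 := by
      funext m
      by_cases hm : m = 0 <;> simp [cL, hm]
    rw [e]
    refine ⟨(hasSum_ite_eq 0 (1 : ℝ)).summable, ?_⟩
    rw [(hasSum_ite_eq 0 (1 : ℝ)).tsum_eq]
    simp [VL]
  | cons q l ih =>
    intro hl
    obtain ⟨s1, t1⟩ := hC h α hn q (hl q List.mem_cons_self)
    obtain ⟨s2, t2⟩ := ih (fun p hp => hl p (List.mem_cons_of_mem _ hp))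
    have s1' : Summable fun i => ‖|gq h q i| * r ^ i‖ := by
      refine s1.congr fun i => ?_
      rw [Real.norm_of_nonneg (by positivity)]
    have s2' : Summable fun i => ‖|cL h l i| * r ^ i‖ := by
      refine s2.congr fun i => ?_
      rw [Real.norm_of_nonneg (by positivity)]
    have s3 := summable_norm_sum_mul_antidiagonal_of_summable_norm s1' s2'
    have t3 := tsum_mul_tsum_eq_tsum_sum_antidiagonal_of_summable_norm s1' s2'
    have s3' : Summable fun n => ∑ kl ∈ antidiagonal n, (|gq h q kl.1| * r ^ kl.1) * (|cL h l kl.2| * r ^ kl.2) :=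
      s3.of_norm
    have hb : ∀ m, |cL h (q :: l) m| * r ^ m ≤
        ∑ kl ∈ antidiagonal m, (|gq h q kl.1| * r ^ kl.1) * (|cL h l kl.2| * r ^ kl.2) := by
      intro m
      rw [cL]
      calc |∑ x ∈ antidiagonal m, gq h q x.1 * cL h l x.2| * r ^ m
          ≤ (∑ x ∈ antidiagonal m, |gq h q x.1 * cL h l x.2|) * r ^ m :=
            mul_le_mul_of_nonneg_right (abs_sum_le_sum_abs _ _) (by positivity)
        _ = _ := by
            rw [sum_mul]
            refine sum_congr rfl fun x hx => ?_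
            rw [Finset.HasAntidiagonal.mem_antidiagonal] at hx
            rw [← hx, pow_add, abs_mul]
            ring
    have s4 : Summable (fun m => |cL h (q :: l) m| * r ^ m) :=
      Summable.of_nonneg_of_le (fun i => by positivity) hb s3'
    refine ⟨s4, ?_⟩
    have hV : VL (q :: l) = 1 / (q : ℝ) + VL l := by simp [VL]
    rw [hV, mul_add, Real.exp_add]
    calc ∑' m, |cL h (q :: l) m| * r ^ m
        ≤ ∑' n, ∑ kl ∈ antidiagonal n, (|gq h q kl.1| * r ^ kl.1) * (|cL h l kl.2| * r ^ kl.2) :=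
          s4.tsum_le_tsum hb s3'
      _ = (∑' i, |gq h q i| * r ^ i) * ∑' i, |cL h l i| * r ^ i := t3.symm
      _ ≤ _ := mul_le_mul t1 t2 (tsum_nonneg fun i => by positivity) (Real.exp_pos _).le

theorem ngen_prod {h : ℕ → ℕ → ℝ} {α : ℝ} (hn : Nice h α) {z : ℝ} (hz : |z| ≤ 1) (l : List ℕ)
    (hl : ∀ q ∈ l, 1 ≤ q) :
    Summable (fun m => ‖z ^ m * cL h l m‖) ∧
    ∑' m, z ^ m * cL h l m = (l.map fun q => ∑' i, z ^ i * gq h q i).prod := by
  obtain ⟨C, _, hC⟩ := nabs_list (le_refl (1 : ℝ))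
  obtain ⟨C', _, hC'⟩ := nabs_sum (le_refl (1 : ℝ))
  simp only [one_pow, mul_one] at hC hC'
  have hzi : ∀ i, |z| ^ i ≤ 1 := fun i => pow_le_one₀ (abs_nonneg z) hz
  have hnl : ∀ l : List ℕ, (∀ q ∈ l, 1 ≤ q) → Summable (fun m => ‖z ^ m * cL h l m‖) := by
    intro l hl
    refine Summable.of_nonneg_of_le (fun m => norm_nonneg _) (fun m => ?_) (hC h α hn l hl).1
    rw [norm_mul, norm_pow, Real.norm_eq_abs, Real.norm_eq_abs]
    exact mul_le_of_le_one_left (abs_nonneg _) (hzi m)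
  refine ⟨hnl l hl, ?_⟩
  induction l with
  | nil =>
    have e : (fun m => z ^ m * cL h [] m) = fun m => if m = 0 then (1 : ℝ) else 0 := by
      funext m
      by_cases hm : m = 0 <;> simp [cL, hm]
    rw [e, (hasSum_ite_eq 0 (1 : ℝ)).tsum_eq]
    simp
  | cons q l ih =>
    have hl' : ∀ p ∈ l, 1 ≤ p := fun p hp => hl p (List.mem_cons_of_mem _ hp)
    have h1 := ih hl'
    have s1 : Summable fun i => ‖z ^ i * gq h q i‖ := by
      refine Summable.of_nonneg_of_le (fun m => norm_nonneg _) (fun m => ?_)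
        (hC' h α hn q (hl q List.mem_cons_self)).1
      rw [norm_mul, norm_pow, Real.norm_eq_abs, Real.norm_eq_abs]
      exact mul_le_of_le_one_left (abs_nonneg _) (hzi m)
    have t3 := tsum_mul_tsum_eq_tsum_sum_antidiagonal_of_summable_norm s1 (hnl l hl')
    rw [List.map_cons, List.prod_cons, ← h1, t3]
    refine tsum_congr fun m => ?_
    rw [cL, mul_sum]
    refine sum_congr rfl fun x hx => ?_
    rw [Finset.HasAntidiagonal.mem_antidiagonal] at hx
    rw [← hx, pow_add]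
    ring

theorem list_prod_le2 (l : List ℕ) (F : ℕ → ℝ) (a b : ℝ) (hl : ∀ q ∈ l, |F q| ≤
    Real.exp (a * (1 / q) + b * (1 / Real.sqrt q) ^ 3)) :
    |(l.map F).prod| ≤ Real.exp (a * VL l + b * WL l) := by
  have h1 := list_prod_le l F (-a) b (by simpa using hl)
  simpa using h1

/-- the main term: the generating function up to `2 K` -/
theorem main_term2 : ∃ C : ℝ, 0 < C ∧ ∀ (h : ℕ → ℕ → ℝ) (α : ℝ), Nice h α → ∀ z : ℝ, |z| ≤ 1 →
    ∀ (l : List ℕ), (∀ q ∈ l, 2 ≤ q) → ∀ K : ℕ,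
    C * VL l ≤ K → ∑ m ∈ range (2 * K + 1), z ^ m * cL h l m ≤
      Real.exp ((α * z + z ^ 2 / 2) * VL l + 70 * WL l) + Real.exp (-K) := by
  obtain ⟨C, hC0, hC⟩ := nabs_list (r := Real.exp 1) (by
    have := Real.add_one_le_exp (1 : ℝ); linarith)
  refine ⟨C, hC0, fun h α hn z hz l hl K hK => ?_⟩
  have hl1 : ∀ q ∈ l, 1 ≤ q := fun q hq => by have := hl q hq; omega
  have hzi : ∀ i, |z| ^ i ≤ 1 := fun i => pow_le_one₀ (abs_nonneg z) hz
  obtain ⟨s1, t1⟩ := hC h α hn l hl1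
  obtain ⟨s2, t2⟩ := ngen_prod hn hz l hl1
  have h1 : ∑' m, z ^ m * cL h l m ≤ Real.exp ((α * z + z ^ 2 / 2) * VL l + 70 * WL l) := by
    rw [t2]
    exact (le_abs_self _).trans (list_prod_le2 l _ _ 70 fun q hq => ngen_sum hn (hl q hq) hz)
  have h2 := s2.of_norm.sum_add_tsum_nat_add (2 * K + 1)
  have h3 : |∑' m, z ^ (m + (2 * K + 1)) * cL h l (m + (2 * K + 1))| ≤ Real.exp (-K) := by
    have s3 : Summable fun m => ‖z ^ (m + (2 * K + 1)) * cL h l (m + (2 * K + 1))‖ :=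
      (summable_nat_add_iff (2 * K + 1)).2 s2
    have s4 : Summable fun m => |cL h l (m + (2 * K + 1))| * Real.exp 1 ^ (m + (2 * K + 1)) :=
      (summable_nat_add_iff (2 * K + 1)).2 s1
    have hb : ∀ m, ‖z ^ (m + (2 * K + 1)) * cL h l (m + (2 * K + 1))‖ ≤
        Real.exp (-(2 * K)) * (|cL h l (m + (2 * K + 1))| * Real.exp 1 ^ (m + (2 * K + 1))) := by
      intro m
      rw [norm_mul, norm_pow, Real.norm_eq_abs, Real.norm_eq_abs]
      have h5 : 1 ≤ Real.exp (-(2 * (K : ℝ))) * Real.exp 1 ^ (m + (2 * K + 1)) := by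
        rw [← Real.exp_nat_mul, ← Real.exp_add, Real.one_le_exp_iff]
        push_cast
        have : (0 : ℝ) ≤ m := by positivity
        linarith
      calc |z| ^ (m + (2 * K + 1)) * |cL h l (m + (2 * K + 1))|
          ≤ |cL h l (m + (2 * K + 1))| * 1 := by
            rw [mul_one]
            exact mul_le_of_le_one_left (abs_nonneg _) (hzi _)
        _ ≤ |cL h l (m + (2 * K + 1))| * (Real.exp (-(2 * (K : ℝ))) * Real.exp 1 ^ (m + (2 * K + 1))) :=
            mul_le_mul_of_nonneg_left h5 (abs_nonneg _)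
        _ = _ := by ring
    rw [← Real.norm_eq_abs]
    calc ‖∑' m, z ^ (m + (2 * K + 1)) * cL h l (m + (2 * K + 1))‖
        ≤ ∑' m, ‖z ^ (m + (2 * K + 1)) * cL h l (m + (2 * K + 1))‖ := norm_tsum_le_tsum_norm s3
      _ ≤ ∑' m, Real.exp (-(2 * K)) * (|cL h l (m + (2 * K + 1))| * Real.exp 1 ^ (m + (2 * K + 1))) :=
          s3.tsum_le_tsum hb (s4.mul_left _)
      _ = Real.exp (-(2 * K)) * ∑' m, |cL h l (m + (2 * K + 1))| * Real.exp 1 ^ (m + (2 * K + 1)) := by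
          rw [tsum_mul_left]
      _ ≤ Real.exp (-(2 * K)) * Real.exp (C * VL l) := by
          refine mul_le_mul_of_nonneg_left (le_trans ?_ t1) (Real.exp_pos _).le
          have h6 := s1.sum_add_tsum_nat_add (2 * K + 1)
          have h7 : 0 ≤ ∑ i ∈ range (2 * K + 1), |cL h l i| * Real.exp 1 ^ i :=
            sum_nonneg fun i _ => by positivity
          linarith
      _ ≤ Real.exp (-K) := by
          rw [← Real.exp_add, Real.exp_le_exp]
          linarith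
  have h4 := (abs_le.1 h3).1
  linarith

end Pool.Agent.Q255.CV
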