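import Pool.Agent.Q255.CV.B

/-! # The bound at one level -/

set_option autoImplicit false

namespace Pool.Agent.Q255.CV

open Finset

/-- truncated exponential -/
noncomputable def EX (n : ℕ) (x : ℝ) : ℝ := ∑ i ∈ range (n + 1), x ^ i / i.factorial

theorem EX_succ (n : ℕ) (x : ℝ) : EX (n + 1) x = EX n x + x ^ (n + 1) / (n + 1).factorial := by
  unfold EX
  rw [sum_range_succ]

theorem hasDerivAt_EX (n : ℕ) (x : ℝ) : HasDerivAt (EX (n + 1)) (EX n x) x := by
  induction n with
  | zero =>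
    have e : EX (0 + 1) = fun x => 1 + x := by
      funext x
      simp [EX, sum_range_succ]
    have e2 : EX 0 x = 1 := by simp [EX]
    rw [e, e2]
    exact (hasDerivAt_id x).const_add 1
  | succ n ih =>
    have e : EX (n + 1 + 1) = fun x => EX (n + 1) x + x ^ (n + 1 + 1) / (n + 1 + 1).factorial := by
      funext x
      exact EX_succ (n + 1) x
    rw [e, EX_succ]
    have h1 : HasDerivAt (fun x : ℝ => x ^ (n + 1 + 1) / ((n + 1 + 1).factorial : ℝ))
        (x ^ (n + 1) / (n + 1).factorial) x := by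
      have h2 := (hasDerivAt_pow (n + 1 + 1) x).div_const ((n + 1 + 1).factorial : ℝ)
      refine h2.congr_deriv ?_
      rw [Nat.factorial_succ (n + 1)]
      have h3 : ((n + 1).factorial : ℝ) ≠ 0 := by positivity
      have h4 : ((n + 1 + 1 : ℕ) : ℝ) ≠ 0 := by positivity
      simp only [Nat.add_sub_cancel]
      push_cast at h4 ⊢
      field_simp
    exact ih.add h1

theorem EX_zero (n : ℕ) : EX n 0 = 1 := by
  unfold EX
  rw [sum_range_succ']
  simp

theorem EX_cmp (k : ℕ) : (∀ x : ℝ, x ≤ 0 → Real.exp x ≤ EX (2 * k) x) ∧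
    ∀ x : ℝ, x ≤ 0 → EX (2 * k + 1) x ≤ Real.exp x := by
  have hc : ∀ n, Continuous fun x => EX n x := fun n => by
    unfold EX
    fun_prop
  have step1 : ∀ n, (∀ x : ℝ, x ≤ 0 → Real.exp x ≤ EX n x) → ∀ x : ℝ, x ≤ 0 → EX (n + 1) x ≤ Real.exp x := by
    intro n hn x hx
    have hm : MonotoneOn (fun x => EX (n + 1) x - Real.exp x) (Set.Iic 0) := by
      refine monotoneOn_of_deriv_nonneg (convex_Iic 0) ((hc _).sub Real.continuous_exp).continuousOn
        (fun z _ => ((hasDerivAt_EX n z).sub (Real.hasDerivAt_exp z)).differentiableAt.differentiableWithinAt)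
        (fun z hz => ?_)
      rw [interior_Iic, Set.mem_Iio] at hz
      have hd : HasDerivAt (fun x => EX (n + 1) x - Real.exp x) (EX n z - Real.exp z) z :=
        (hasDerivAt_EX n z).sub (Real.hasDerivAt_exp z)
      rw [hd.deriv]
      linarith [hn z hz.le]
    have := hm (Set.mem_Iic.2 hx) (Set.mem_Iic.2 le_rfl) hx
    simp only [EX_zero, Real.exp_zero, sub_self] at this
    linarith
  have step2 : ∀ n, (∀ x : ℝ, x ≤ 0 → EX n x ≤ Real.exp x) → ∀ x : ℝ, x ≤ 0 → Real.exp x ≤ EX (n + 1) x := by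
    intro n hn x hx
    have hm : AntitoneOn (fun x => EX (n + 1) x - Real.exp x) (Set.Iic 0) := by
      refine antitoneOn_of_deriv_nonpos (convex_Iic 0) ((hc _).sub Real.continuous_exp).continuousOn
        (fun z _ => ((hasDerivAt_EX n z).sub (Real.hasDerivAt_exp z)).differentiableAt.differentiableWithinAt)
        (fun z hz => ?_)
      rw [interior_Iic, Set.mem_Iio] at hz
      have hd : HasDerivAt (fun x => EX (n + 1) x - Real.exp x) (EX n z - Real.exp z) z :=
        (hasDerivAt_EX n z).sub (Real.hasDerivAt_exp z)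
      rw [hd.deriv]
      linarith [hn z hz.le]
    have := hm (Set.mem_Iic.2 hx) (Set.mem_Iic.2 le_rfl) hx
    simp only [EX_zero, Real.exp_zero, sub_self] at this
    linarith
  induction k with
  | zero =>
    have h0 : ∀ x : ℝ, x ≤ 0 → Real.exp x ≤ EX (2 * 0) x := by
      intro x hx
      simpa [EX] using hx
    exact ⟨h0, step1 _ h0⟩
  | succ k ih =>
    have h0 : ∀ x : ℝ, x ≤ 0 → Real.exp x ≤ EX (2 * (k + 1)) x := step2 _ ih.2
    exact ⟨h0, step1 _ h0⟩

/-- the even truncated exponential is at least `exp (-a)` if `s ≤ a`, `a ≥ 0`, and positive -/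
theorem EX_low (k : ℕ) (s : ℝ) : 0 < EX (2 * k) (-s) ∧
    ∀ a : ℝ, 0 ≤ a → s ≤ a → Real.exp (-a) ≤ EX (2 * k) (-s) := by
  have h1 : ∀ x : ℝ, 0 ≤ x → 1 ≤ EX (2 * k) x := by
    intro x hx
    unfold EX
    rw [sum_range_succ']
    have : 0 ≤ ∑ i ∈ range (2 * k), x ^ (i + 1) / ((i + 1).factorial : ℝ) :=
      sum_nonneg fun i _ => by positivity
    simp only [pow_zero, Nat.factorial_zero, Nat.cast_one, div_one]
    linarith
  rcases le_total 0 s with hs | hs
  · have h2 := (EX_cmp k).1 (-s) (by linarith)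
    exact ⟨(Real.exp_pos _).trans_le h2, fun a _ hsa =>
      (Real.exp_le_exp.2 (by linarith)).trans h2⟩
  · have h2 := h1 (-s) (by linarith)
    refine ⟨by linarith, fun a ha _ => ?_⟩
    have : Real.exp (-a) ≤ 1 := Real.exp_le_one_iff.2 (by linarith)
    linarith

variable {Ω : Type} [Fintype Ω]

open Classical in
theorem level_bound : ∃ C : ℝ, 0 < C ∧ ∀ (Ω : Type) [Fintype Ω] (ω L : Ω → ℝ) (lam : Ω → ℕ → ℝ)
    (bad : ℕ) (_ : ∀ f m n, Nat.Coprime m n → lam f (m * n) = lam f m * lam f n)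
    (_ : ∀ f, lam f 1 = 1)
    (_ : ∀ f p, p.Prime → p ≠ bad → ∀ b, lam f p * lam f (p ^ (b + 1)) =
      lam f (p ^ (b + 2)) + lam f (p ^ b))
    (_ : ∀ f, 0 ≤ ω f) (_ : ∀ f, 0 ≤ L f) (X δ : ℝ) (_ : 0 ≤ δ)
    (_ : ∀ n : ℕ, 0 < n → (n : ℝ) ≤ X → |∑ f, ω f * lam f n - if n = 1 then 1 else 0| ≤ δ)
    (_ : ∀ n : ℕ, 0 < n → (n : ℝ) ≤ X → |∑ f, ω f * L f * lam f n - 2 / Real.sqrt n| ≤ δ)
    (y : ℕ) (_ : 1 ≤ y) (l : List ℕ) (_ : l.Nodup) (_ : ∀ p ∈ l, p.Prime ∧ p ≠ bad ∧ p ≤ y)
    (K : ℕ) (_ : 1 ≤ K) (_ : (y : ℝ) ^ (2 * K) ≤ X) (_ : C * VL l ≤ K) (_ : 0 < VL l)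
    (t ε : ℝ) (_ : 0 < t) (_ : 0 < ε),
    ∑ f with t < L f, ω f ≤ (VL l + δ * DL l ^ 2) / (ε * VL l) ^ 2 +
      Real.exp (ε * VL l) / t * (2 * (Real.exp (-(1 / 2) * VL l + 70 * WL l) + Real.exp (-K)) +
        δ * ((2 * K + 1) * (1 + DL l) ^ (2 * K))) := by
  obtain ⟨C, hC0, hC⟩ := main_term
  refine ⟨C, hC0, ?_⟩
  intro Ω _ ω L lam bad hmul hone hhecke hω hL X δ hδ hE1 hE2 y hy l hnd hl K hK hyX hCV hV t ε ht0 hε
  have hy1 : (1 : ℝ) ≤ y := by exact_mod_cast hy
  have hex1 := expansion ω lam bad hmul hone hhecke (fun n => if n = 1 then (1 : ℝ) else 0) h0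
    (fun q n b hq hqn => by
      unfold h0
      by_cases hn : n = 1
      · by_cases hb : b = 0
        · simp [hn, hb]
        · have : n * q ^ b ≠ 1 := by
            rw [hn, one_mul]
            intro h
            rw [Nat.pow_eq_one] at h
            rcases h with h | h
            · exact hq.one_lt.ne' h
            · exact hb h
          simp [hb, this]
      · have : n * q ^ b ≠ 1 := fun h => hn (Nat.eq_one_of_mul_eq_one_right h)
        simp [hn, this]) X δ hδ hE1 y hy l hnd hl 1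
  have hex2 := expansion (fun f => ω f * L f) lam bad hmul hone hhecke
    (fun n => 2 / Real.sqrt n) ht
    (fun q n b hq hqn => by
      unfold ht
      push_cast
      have hs : Real.sqrt ((n : ℝ) * (q : ℝ) ^ b) = Real.sqrt n * Real.sqrt q ^ b := by
        rw [Real.sqrt_mul (Nat.cast_nonneg n)]
        congr 1
        rw [Real.sqrt_eq_iff_mul_self_eq (by positivity) (by positivity), ← mul_pow,
          Real.mul_self_sqrt (Nat.cast_nonneg q)]
      rw [hs, div_pow, one_pow]
      rw [div_mul_div_comm, mul_one]) X δ hδ hE2 y hy l hnd hl 1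
  have hcop : ∀ p ∈ l, ¬ p ∣ 1 := fun p hp h => (hl p hp).1.one_lt.ne' (Nat.dvd_one.1 h)
  -- second moment
  have hS2 : ∑ f, ω f * SL (lam f) l ^ 2 ≤ VL l + δ * DL l ^ 2 := by
    have h1 := hex1 2 one_pos hcop (by
      rw [Nat.cast_one, one_mul]
      exact (pow_le_pow_right₀ hy1 (by omega)).trans hyX)
    simp only [hone, one_mul, if_true, (c0_moments l).2.2] at h1
    have h2 := (abs_le.1 h1).2
    have e1 : ∑ f, ω f * (SL (lam f) l ^ 2 / (Nat.factorial 2 : ℕ)) = (∑ f, ω f * SL (lam f) l ^ 2) / 2 := by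
      rw [sum_div]
      refine sum_congr rfl fun f _ => ?_
      simp [Nat.factorial]
      ring
    have e2 : (Nat.factorial 2 : ℝ) = 2 := by norm_num [Nat.factorial]
    rw [e1, e2] at h2
    linarith
  -- twisted first moment
  have hL1 : ∑ f, ω f * (L f * EX (2 * K) (-SL (lam f) l)) ≤
      2 * (Real.exp (-(1 / 2) * VL l + 70 * WL l) + Real.exp (-K)) +
        δ * ((2 * K + 1) * (1 + DL l) ^ (2 * K)) := by
    have e1 : ∑ f, ω f * (L f * EX (2 * K) (-SL (lam f) l)) = ∑ m ∈ range (2 * K + 1),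
        (-1 : ℝ) ^ m * ∑ f, ω f * L f * (lam f 1 * (SL (lam f) l ^ m / m.factorial)) := by
      simp only [EX, mul_sum]
      rw [sum_comm]
      refine sum_congr rfl fun m _ => sum_congr rfl fun f _ => ?_
      rw [hone, neg_pow]
      ring
    have h2 : ∀ m ∈ range (2 * K + 1), (-1 : ℝ) ^ m * ∑ f, ω f * L f * (lam f 1 *
        (SL (lam f) l ^ m / m.factorial)) ≤ 2 * ((-1 : ℝ) ^ m * cL ht l m) +
          δ * (1 + DL l) ^ (2 * K) := by
      intro m hm
      rw [mem_range] at hm
      have h1 := hex2 m one_pos hcop (by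
        rw [Nat.cast_one, one_mul]
        exact (pow_le_pow_right₀ hy1 (by omega)).trans hyX)
      simp only [Nat.cast_one, Real.sqrt_one, div_one] at h1
      have h3 : (-1 : ℝ) ^ m * ∑ f, ω f * L f * (lam f 1 * (SL (lam f) l ^ m / m.factorial)) -
          2 * ((-1 : ℝ) ^ m * cL ht l m) ≤ δ * (DL l ^ m / m.factorial) := by
        refine le_trans (le_abs_self _) ?_
        have e : (-1 : ℝ) ^ m * ∑ f, ω f * L f * (lam f 1 * (SL (lam f) l ^ m / m.factorial)) -
          2 * ((-1 : ℝ) ^ m * cL ht l m) = (-1 : ℝ) ^ m * (∑ f, ω f * L f * (lam f 1 *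
            (SL (lam f) l ^ m / m.factorial)) - 2 * cL ht l m) := by ring
        rw [e, abs_mul, abs_pow, abs_neg, abs_one, one_pow, one_mul]
        exact h1
      have h4 : DL l ^ m / m.factorial ≤ (1 + DL l) ^ (2 * K) := by
        have hD := DL_nonneg l
        calc DL l ^ m / m.factorial ≤ DL l ^ m := div_le_self (by positivity) (by
              exact_mod_cast Nat.one_le_iff_ne_zero.2 (Nat.factorial_ne_zero m))
          _ ≤ (1 + DL l) ^ m := pow_le_pow_left₀ hD (by linarith) _
          _ ≤ _ := pow_le_pow_right₀ (by linarith) (by omega)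
      have h5 := mul_le_mul_of_nonneg_left h4 hδ
      linarith
    rw [e1]
    refine (sum_le_sum h2).trans ?_
    rw [sum_add_distrib, ← mul_sum, sum_const, card_range, nsmul_eq_mul]
    have h6 := hC l (fun q hq => (hl q hq).1.two_le) K hCV
    push_cast
    nlinarith [h6]
  -- conclusion
  have hεV : 0 < ε * VL l := mul_pos hε hV
  calc ∑ f with t < L f, ω f ≤ ∑ f with t < L f, ω f * (SL (lam f) l ^ 2 / (ε * VL l) ^ 2 +
        Real.exp (ε * VL l) / t * (L f * EX (2 * K) (-SL (lam f) l))) := by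
        refine sum_le_sum fun f hf => ?_
        rw [mem_filter] at hf
        have hE := EX_low K (SL (lam f) l)
        have h1 : 0 ≤ Real.exp (ε * VL l) / t * (L f * EX (2 * K) (-SL (lam f) l)) :=
          mul_nonneg (by positivity) (mul_nonneg (hL f) hE.1.le)
        have h2 : 1 ≤ SL (lam f) l ^ 2 / (ε * VL l) ^ 2 +
            Real.exp (ε * VL l) / t * (L f * EX (2 * K) (-SL (lam f) l)) := by
          rcases le_or_gt (SL (lam f) l) (ε * VL l) with hS | hS
          · have h3 := hE.2 _ hεV.le hS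
            have h4 : 1 ≤ Real.exp (ε * VL l) / t * (L f * EX (2 * K) (-SL (lam f) l)) := by
              calc (1 : ℝ) = Real.exp (ε * VL l) / t * (t * Real.exp (-(ε * VL l))) := by
                    rw [Real.exp_neg]
                    field_simp
                _ ≤ Real.exp (ε * VL l) / t * (L f * EX (2 * K) (-SL (lam f) l)) := by
                    refine mul_le_mul_of_nonneg_left ?_ (by positivity)
                    exact mul_le_mul hf.2.le h3 (Real.exp_pos _).le (hL f)
            have h5 : 0 ≤ SL (lam f) l ^ 2 / (ε * VL l) ^ 2 := by positivity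
            linarith
          · have h3 : 1 ≤ SL (lam f) l ^ 2 / (ε * VL l) ^ 2 := by
              rw [one_le_div (by positivity)]
              exact pow_le_pow_left₀ hεV.le hS.le 2
            linarith
        calc ω f = ω f * 1 := (mul_one _).symm
          _ ≤ _ := mul_le_mul_of_nonneg_left h2 (hω f)
    _ ≤ ∑ f, ω f * (SL (lam f) l ^ 2 / (ε * VL l) ^ 2 +
        Real.exp (ε * VL l) / t * (L f * EX (2 * K) (-SL (lam f) l))) := by
        refine sum_le_sum_of_subset_of_nonneg (filter_subset _ _) fun f _ _ => ?_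
        have hE := EX_low K (SL (lam f) l)
        refine mul_nonneg (hω f) (add_nonneg (by positivity) (mul_nonneg (by positivity)
          (mul_nonneg (hL f) hE.1.le)))
    _ = (∑ f, ω f * SL (lam f) l ^ 2) / (ε * VL l) ^ 2 + Real.exp (ε * VL l) / t *
        ∑ f, ω f * (L f * EX (2 * K) (-SL (lam f) l)) := by
        rw [sum_div, mul_sum, ← sum_add_distrib]
        refine sum_congr rfl fun f _ => ?_
        ring
    _ ≤ _ := by
        refine add_le_add ?_ (mul_le_mul_of_nonneg_left hL1 (by positivity))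
        exact div_le_div_of_nonneg_right hS2 (by positivity)

end Pool.Agent.Q255.CV
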