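import Pool.Agent.Q255.CV.B2

/-! # The bound at one level, large deviations -/

set_option autoImplicit false

namespace Pool.Agent.Q255.CV

open Finset

theorem EX_up (k : ℕ) (x : ℝ) (hx : 0 ≤ x) (hk : 3 * x ≤ 2 * k) : Real.exp x / 2 ≤ EX (2 * k) x := by
  obtain ⟨h1, -⟩ := exp_tail x hx 0
  have he : Real.exp 1 ≤ 3 := by have := Real.exp_one_lt_d9; linarith
  obtain ⟨h2, -⟩ := exp_tail (Real.exp 1 * x) (by positivity) 0
  have h3 := h1.summable.sum_add_tsum_nat_add (2 * k + 1)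
  rw [h1.tsum_eq] at h3
  have h4 : ∑' i : ℕ, x ^ (i + (2 * k + 1)) / (i + (2 * k + 1)).factorial ≤
      Real.exp (-(2 * k + 1)) * Real.exp (Real.exp 1 * x) := by
    have s1 : Summable fun i : ℕ => x ^ (i + (2 * k + 1)) / ((i + (2 * k + 1)).factorial : ℝ) :=
      (summable_nat_add_iff (2 * k + 1)).2 h1.summable
    have s2 : Summable fun i : ℕ => (Real.exp 1 * x) ^ (i + (2 * k + 1)) / ((i + (2 * k + 1)).factorial : ℝ) :=
      (summable_nat_add_iff (2 * k + 1)).2 h2.summable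
    have hb : ∀ i : ℕ, x ^ (i + (2 * k + 1)) / ((i + (2 * k + 1)).factorial : ℝ) ≤
        Real.exp (-(2 * k + 1)) *
          ((Real.exp 1 * x) ^ (i + (2 * k + 1)) / ((i + (2 * k + 1)).factorial : ℝ)) := by
      intro i
      have h5 : 1 ≤ Real.exp (-(2 * k + 1)) * Real.exp 1 ^ (i + (2 * k + 1)) := by
        rw [← Real.exp_nat_mul, ← Real.exp_add, Real.one_le_exp_iff]
        push_cast
        have : (0 : ℝ) ≤ i := by positivity
        linarith
      have h6 : 0 ≤ x ^ (i + (2 * k + 1)) / ((i + (2 * k + 1)).factorial : ℝ) := by positivity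
      calc x ^ (i + (2 * k + 1)) / ((i + (2 * k + 1)).factorial : ℝ)
          = 1 * (x ^ (i + (2 * k + 1)) / ((i + (2 * k + 1)).factorial : ℝ)) := by ring
        _ ≤ (Real.exp (-(2 * k + 1)) * Real.exp 1 ^ (i + (2 * k + 1))) *
            (x ^ (i + (2 * k + 1)) / ((i + (2 * k + 1)).factorial : ℝ)) :=
            mul_le_mul_of_nonneg_right h5 h6
        _ = _ := by rw [mul_pow]; ring
    calc ∑' i : ℕ, x ^ (i + (2 * k + 1)) / ((i + (2 * k + 1)).factorial : ℝ)
        ≤ ∑' i : ℕ, Real.exp (-(2 * k + 1)) *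
          ((Real.exp 1 * x) ^ (i + (2 * k + 1)) / ((i + (2 * k + 1)).factorial : ℝ)) :=
          s1.tsum_le_tsum hb (s2.mul_left _)
      _ = Real.exp (-(2 * k + 1)) *
          ∑' i : ℕ, (Real.exp 1 * x) ^ (i + (2 * k + 1)) / ((i + (2 * k + 1)).factorial : ℝ) := by
          rw [tsum_mul_left]
      _ ≤ _ := by
          refine mul_le_mul_of_nonneg_left ?_ (Real.exp_pos _).le
          have h7 := h2.summable.sum_add_tsum_nat_add (2 * k + 1)
          rw [h2.tsum_eq] at h7
          have h8 : 0 ≤ ∑ i ∈ range (2 * k + 1), (Real.exp 1 * x) ^ i / (i.factorial : ℝ) :=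
            sum_nonneg fun i _ => by positivity
          linarith
  have h9 : Real.exp (-(2 * (k : ℝ) + 1)) * Real.exp (Real.exp 1 * x) ≤ 1 / 2 := by
    have h10 : Real.exp 1 * x ≤ 3 * x := mul_le_mul_of_nonneg_right he hx
    calc Real.exp (-(2 * (k : ℝ) + 1)) * Real.exp (Real.exp 1 * x) ≤ Real.exp (-1) := by
          rw [← Real.exp_add, Real.exp_le_exp]
          linarith
      _ ≤ 1 / 2 := by
          rw [Real.exp_neg, ← one_div]
          refine one_div_le_one_div_of_le (by norm_num) ?_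
          have := Real.add_one_le_exp (1 : ℝ)
          linarith
  have h11 : 1 ≤ Real.exp x := Real.one_le_exp hx
  have h12 : EX (2 * k) x = ∑ i ∈ range (2 * k + 1), x ^ i / (i.factorial : ℝ) := rfl
  rw [h12]
  linarith

theorem EX_mono (n : ℕ) {x y : ℝ} (hx : 0 ≤ x) (hxy : x ≤ y) : EX n x ≤ EX n y := by
  unfold EX
  exact sum_le_sum fun i _ => div_le_div_of_nonneg_right (pow_le_pow_left₀ hx hxy i) (by positivity)

theorem EX_mean {Ω : Type} [Fintype Ω] (rho : Ω → ℝ) (S : Ω → ℝ) (h : ℕ → ℕ → ℝ) (α z w δ : ℝ)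
    (C : ℝ) (hC : ∀ (h : ℕ → ℕ → ℝ) (α : ℝ), Nice h α → ∀ z : ℝ, |z| ≤ 1 →
    ∀ (l : List ℕ), (∀ q ∈ l, 2 ≤ q) → ∀ K : ℕ,
    C * VL l ≤ K → ∑ m ∈ range (2 * K + 1), z ^ m * cL h l m ≤
      Real.exp ((α * z + z ^ 2 / 2) * VL l + 70 * WL l) + Real.exp (-K))
    (hn : Nice h α) (hz : |z| ≤ 1) (hw : 0 ≤ w) (hδ : 0 ≤ δ) (l : List ℕ) (hl : ∀ q ∈ l, 2 ≤ q)
    (K : ℕ) (hCV : C * VL l ≤ K)
    (hex : ∀ m ≤ 2 * K, |∑ f, rho f * (S f ^ m / m.factorial) - w * cL h l m| ≤
      δ * (DL l ^ m / m.factorial)) :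
    ∑ f, rho f * EX (2 * K) (z * S f) ≤ w * (Real.exp ((α * z + z ^ 2 / 2) * VL l + 70 * WL l) +
      Real.exp (-K)) + δ * ((2 * K + 1) * (1 + DL l) ^ (2 * K)) := by
  have hzi : ∀ i, |z| ^ i ≤ 1 := fun i => pow_le_one₀ (abs_nonneg z) hz
  have e1 : ∑ f, rho f * EX (2 * K) (z * S f) = ∑ m ∈ range (2 * K + 1),
      z ^ m * ∑ f, rho f * (S f ^ m / m.factorial) := by
    simp only [EX, mul_sum]
    rw [sum_comm]
    refine sum_congr rfl fun m _ => sum_congr rfl fun f _ => ?_
    rw [mul_pow]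
    ring
  have h2 : ∀ m ∈ range (2 * K + 1), z ^ m * ∑ f, rho f * (S f ^ m / m.factorial) ≤
      w * (z ^ m * cL h l m) + δ * (1 + DL l) ^ (2 * K) := by
    intro m hm
    rw [mem_range] at hm
    have h1 := hex m (by omega)
    have hD := DL_nonneg l
    have h4 : DL l ^ m / m.factorial ≤ (1 + DL l) ^ (2 * K) := by
      calc DL l ^ m / m.factorial ≤ DL l ^ m := div_le_self (by positivity) (by
            exact_mod_cast Nat.one_le_iff_ne_zero.2 (Nat.factorial_ne_zero m))
        _ ≤ (1 + DL l) ^ m := pow_le_pow_left₀ hD (by linarith) _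
        _ ≤ _ := pow_le_pow_right₀ (by linarith) (by omega)
    have h5 := mul_le_mul_of_nonneg_left h4 hδ
    have h3 : z ^ m * ∑ f, rho f * (S f ^ m / m.factorial) - w * (z ^ m * cL h l m) ≤
        δ * (DL l ^ m / m.factorial) := by
      refine le_trans (le_abs_self _) ?_
      have e : z ^ m * ∑ f, rho f * (S f ^ m / m.factorial) - w * (z ^ m * cL h l m) =
          z ^ m * (∑ f, rho f * (S f ^ m / m.factorial) - w * cL h l m) := by ring
      rw [e, abs_mul, abs_pow]
      exact (mul_le_of_le_one_left (abs_nonneg _) (hzi m)).trans h1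
    linarith
  rw [e1]
  refine (sum_le_sum h2).trans ?_
  rw [sum_add_distrib, ← mul_sum, sum_const, card_range, nsmul_eq_mul]
  have h6 := mul_le_mul_of_nonneg_left (hC h α hn z hz l hl K hCV) hw
  push_cast
  have e3 : (2 * (K : ℝ) + 1) * (δ * (1 + DL l) ^ (2 * K)) =
      δ * ((2 * K + 1) * (1 + DL l) ^ (2 * K)) := by ring
  linarith

open Classical in
theorem level_bound2 : ∃ C : ℝ, 0 < C ∧ ∀ (Ω : Type) [Fintype Ω] (ω L : Ω → ℝ) (lam : Ω → ℕ → ℝ)
    (bad : ℕ) (_ : ∀ f m n, Nat.Coprime m n → lam f (m * n) = lam f m * lam f n)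
    (_ : ∀ f, lam f 1 = 1)
    (_ : ∀ f p, p.Prime → p ≠ bad → ∀ b, lam f p * lam f (p ^ (b + 1)) =
      lam f (p ^ (b + 2)) + lam f (p ^ b))
    (_ : ∀ f, 0 ≤ ω f) (_ : ∀ f, 0 ≤ L f) (X δ : ℝ) (_ : 0 ≤ δ)
    (_ : ∀ n : ℕ, 0 < n → (n : ℝ) ≤ X → |∑ f, ω f * lam f n - if n = 1 then 1 else 0| ≤ δ)
    (_ : ∀ n : ℕ, 0 < n → (n : ℝ) ≤ X → |∑ f, ω f * L f * lam f n - 2 / Real.sqrt n| ≤ δ)
    (y : ℕ) (_ : 1 ≤ y) (l : List ℕ) (_ : l.Nodup) (_ : ∀ p ∈ l, p.Prime ∧ p ≠ bad ∧ p ≤ y)
    (K : ℕ) (_ : (y : ℝ) ^ (2 * K) ≤ X) (_ : C * VL l ≤ K) (_ : 0 ≤ VL l)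
    (t k σ : ℝ) (_ : 0 < t) (_ : 0 < k) (_ : k < 1) (_ : 0 ≤ σ) (_ : 3 * (k * (σ * VL l)) ≤ 2 * K),
    ∑ f with t < L f, ω f ≤ 2 * Real.exp (-(k * (σ * VL l))) *
      (Real.exp (k ^ 2 / 2 * VL l + 70 * WL l) + Real.exp (-K) +
        δ * ((2 * K + 1) * (1 + DL l) ^ (2 * K))) +
      Real.exp ((1 - k) * (σ * VL l)) / t * (2 * (Real.exp ((k ^ 2 - 1) / 2 * VL l + 70 * WL l) +
        Real.exp (-K)) + δ * ((2 * K + 1) * (1 + DL l) ^ (2 * K))) := by
  obtain ⟨C, hC0, hC⟩ := main_term2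
  refine ⟨C, hC0, ?_⟩
  intro Ω _ ω L lam bad hmul hone hhecke hω hL X δ hδ hE1 hE2 y hy l hnd hl K hyX hCV hV t k σ ht0
    hk0 hk1 hσ hK3
  have hy1 : (1 : ℝ) ≤ y := by exact_mod_cast hy
  have hex1 := expansion ω lam bad hmul hone hhecke (fun n => if n = 1 then (1 : ℝ) else 0) h0
    (fun q n b hq hqn => by
      unfold h0
      by_cases hn : n = 1
      · by_cases hb : b = 0
        · simp [hn, hb]
        · have : n * q ^ b ≠ 1 := by
            rw [hn, one_mul]
            intro h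
            rw [Nat.pow_eq_one] at h
            rcases h with h | h
            · exact hq.one_lt.ne' h
            · exact hb h
          simp [hb, this]
      · have : n * q ^ b ≠ 1 := fun h => hn (Nat.eq_one_of_mul_eq_one_right h)
        simp [hn, this]) X δ hδ hE1 y hy l hnd hl 1
  have hex2 := expansion (fun f => ω f * L f) lam bad hmul hone hhecke
    (fun n => 2 / Real.sqrt n) ht
    (fun q n b hq hqn => by
      unfold ht
      push_cast
      have hs : Real.sqrt ((n : ℝ) * (q : ℝ) ^ b) = Real.sqrt n * Real.sqrt q ^ b := by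
        rw [Real.sqrt_mul (Nat.cast_nonneg n)]
        congr 1
        rw [Real.sqrt_eq_iff_mul_self_eq (by positivity) (by positivity), ← mul_pow,
          Real.mul_self_sqrt (Nat.cast_nonneg q)]
      rw [hs, div_pow, one_pow]
      rw [div_mul_div_comm, mul_one]) X δ hδ hE2 y hy l hnd hl 1
  have hcop : ∀ p ∈ l, ¬ p ∣ 1 := fun p hp h => (hl p hp).1.one_lt.ne' (Nat.dvd_one.1 h)
  have hl2 : ∀ q ∈ l, 2 ≤ q := fun q hq => (hl q hq).1.two_le
  have hX : ∀ m ≤ 2 * K, ((1 : ℕ) : ℝ) * (y : ℝ) ^ m ≤ X := fun m hm => by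
    rw [Nat.cast_one, one_mul]
    exact (pow_le_pow_right₀ hy1 hm).trans hyX
  -- the mean of the exponential
  have hM1 := EX_mean ω (fun f => SL (lam f) l) h0 0 k 1 δ C hC nice_h0
    (by rw [abs_of_pos hk0]; exact hk1.le) zero_le_one hδ l hl2 K hCV (fun m hm => by
      have h1 := hex1 m one_pos hcop (hX m hm)
      simpa only [hone, one_mul, if_true] using h1)
  have hM2 := EX_mean (fun f => ω f * L f) (fun f => SL (lam f) l) ht 1 (-(1 - k)) 2 δ C hC nice_ht
    (by rw [abs_neg, abs_of_pos (by linarith)]; linarith) zero_le_two hδ l hl2 K hCV (fun m hm => by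
      have h1 := hex2 m one_pos hcop (hX m hm)
      simpa only [hone, one_mul, Nat.cast_one, Real.sqrt_one, div_one] using h1)
  have e1 : (0 * k + k ^ 2 / 2) = k ^ 2 / 2 := by ring
  have e2 : (1 * -(1 - k) + (-(1 - k)) ^ 2 / 2) = (k ^ 2 - 1) / 2 := by ring
  rw [e1, one_mul] at hM1
  rw [e2] at hM2
  have hpos1 : ∀ f, 0 < EX (2 * K) (k * SL (lam f) l) := fun f => by
    have := (EX_low K (-(k * SL (lam f) l))).1
    rwa [neg_neg] at this
  have hpos2 : ∀ f, 0 < EX (2 * K) (-(1 - k) * SL (lam f) l) := fun f => by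
    have := (EX_low K ((1 - k) * SL (lam f) l)).1
    rwa [← neg_mul] at this
  calc ∑ f with t < L f, ω f
      ≤ ∑ f with t < L f, (2 * Real.exp (-(k * (σ * VL l))) * (ω f * EX (2 * K) (k * SL (lam f) l)) +
        Real.exp ((1 - k) * (σ * VL l)) / t * (ω f * L f * EX (2 * K) (-(1 - k) * SL (lam f) l))) := by
        refine sum_le_sum fun f hf => ?_
        rw [mem_filter] at hf
        have n1 : 0 ≤ 2 * Real.exp (-(k * (σ * VL l))) * EX (2 * K) (k * SL (lam f) l) :=
          mul_nonneg (by positivity) (hpos1 f).le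
        have n2 : 0 ≤ Real.exp ((1 - k) * (σ * VL l)) / t *
            (L f * EX (2 * K) (-(1 - k) * SL (lam f) l)) :=
          mul_nonneg (by positivity) (mul_nonneg (hL f) (hpos2 f).le)
        have h2 : 1 ≤ 2 * Real.exp (-(k * (σ * VL l))) * EX (2 * K) (k * SL (lam f) l) +
            Real.exp ((1 - k) * (σ * VL l)) / t * (L f * EX (2 * K) (-(1 - k) * SL (lam f) l)) := by
          rcases le_or_gt (SL (lam f) l) (σ * VL l) with hS | hS
          · have h3 : Real.exp (-((1 - k) * (σ * VL l))) ≤ EX (2 * K) (-(1 - k) * SL (lam f) l) := by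
              rw [neg_mul]
              exact (EX_low K ((1 - k) * SL (lam f) l)).2 ((1 - k) * (σ * VL l))
                (mul_nonneg (by linarith) (mul_nonneg hσ hV))
                (mul_le_mul_of_nonneg_left hS (by linarith))
            have h4 : 1 ≤ Real.exp ((1 - k) * (σ * VL l)) / t *
                (L f * EX (2 * K) (-(1 - k) * SL (lam f) l)) := by
              calc (1 : ℝ) = Real.exp ((1 - k) * (σ * VL l)) / t *
                    (t * Real.exp (-((1 - k) * (σ * VL l)))) := by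
                    rw [Real.exp_neg]
                    field_simp
                _ ≤ _ := by
                    refine mul_le_mul_of_nonneg_left ?_ (by positivity)
                    exact mul_le_mul hf.2.le h3 (Real.exp_pos _).le (hL f)
            linarith
          · have h5 : Real.exp (k * (σ * VL l)) / 2 ≤ EX (2 * K) (k * SL (lam f) l) := by
              refine (EX_up K _ (mul_nonneg hk0.le (mul_nonneg hσ hV)) hK3).trans ?_
              exact EX_mono _ (mul_nonneg hk0.le (mul_nonneg hσ hV))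
                (mul_le_mul_of_nonneg_left hS.le hk0.le)
            have h6 : 1 ≤ 2 * Real.exp (-(k * (σ * VL l))) * EX (2 * K) (k * SL (lam f) l) := by
              calc (1 : ℝ) = 2 * Real.exp (-(k * (σ * VL l))) * (Real.exp (k * (σ * VL l)) / 2) := by
                    rw [Real.exp_neg]
                    field_simp
                _ ≤ _ := mul_le_mul_of_nonneg_left h5 (by positivity)
            linarith
        calc ω f = ω f * 1 := (mul_one _).symm
          _ ≤ ω f * _ := mul_le_mul_of_nonneg_left h2 (hω f)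
          _ = _ := by ring
    _ ≤ ∑ f, (2 * Real.exp (-(k * (σ * VL l))) * (ω f * EX (2 * K) (k * SL (lam f) l)) +
        Real.exp ((1 - k) * (σ * VL l)) / t * (ω f * L f * EX (2 * K) (-(1 - k) * SL (lam f) l))) := by
        refine sum_le_sum_of_subset_of_nonneg (filter_subset _ _) fun f _ _ => ?_
        have m1 : 0 ≤ ω f * EX (2 * K) (k * SL (lam f) l) := mul_nonneg (hω f) (hpos1 f).le
        have m2 : 0 ≤ ω f * L f * EX (2 * K) (-(1 - k) * SL (lam f) l) :=
          mul_nonneg (mul_nonneg (hω f) (hL f)) (hpos2 f).le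
        positivity
    _ = 2 * Real.exp (-(k * (σ * VL l))) * (∑ f, ω f * EX (2 * K) (k * SL (lam f) l)) +
        Real.exp ((1 - k) * (σ * VL l)) / t * ∑ f, ω f * L f * EX (2 * K) (-(1 - k) * SL (lam f) l) := by
        rw [sum_add_distrib, mul_sum, mul_sum]
    _ ≤ _ := add_le_add (mul_le_mul_of_nonneg_left hM1 (by positivity))
        (mul_le_mul_of_nonneg_left hM2 (by positivity))

end Pool.Agent.Q255.CV
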