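import Pool.Agent.Q255.CV.C
import Pool.Agent.Erdos456.Mertens

/-! # Choice of the parameters -/

set_option autoImplicit false

namespace Pool.Agent.Q255.CV

open Finset Filter Topology

/-- the primes up to `y` -/
noncomputable def PL (y : ℕ) : List ℕ := ((Icc 1 y).filter Nat.Prime).toList

theorem mem_PL {y p : ℕ} : p ∈ PL y ↔ p.Prime ∧ p ≤ y := by
  unfold PL
  rw [mem_toList, mem_filter, mem_Icc]
  constructor
  · rintro ⟨⟨_, h⟩, hp⟩
    exact ⟨hp, h⟩
  · rintro ⟨hp, h⟩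
    exact ⟨⟨hp.one_le, h⟩, hp⟩

theorem nodup_PL (y : ℕ) : (PL y).Nodup := nodup_toList _

theorem VL_PL (y : ℕ) : VL (PL y) = ∑ p ∈ (Icc 1 y).filter Nat.Prime, (1 : ℝ) / p := by
  unfold VL PL
  exact Finset.sum_map_toList _ _

theorem DL_PL_le (y : ℕ) : DL (PL y) ≤ 2 * y := by
  unfold DL PL
  rw [Finset.sum_map_toList]
  calc ∑ p ∈ (Icc 1 y).filter Nat.Prime, 2 / Real.sqrt p
      ≤ ∑ p ∈ (Icc 1 y).filter Nat.Prime, (2 : ℝ) := by
        refine sum_le_sum fun p hp => ?_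
        rw [mem_filter, mem_Icc] at hp
        refine div_le_self (by norm_num) ?_
        rw [Real.one_le_sqrt]
        exact_mod_cast hp.1.1
    _ ≤ ∑ p ∈ Icc 1 y, (2 : ℝ) :=
        sum_le_sum_of_subset_of_nonneg (filter_subset _ _) fun _ _ _ => by norm_num
    _ = 2 * y := by simp [mul_comm]

theorem WL_PL_le : ∃ W : ℝ, 0 ≤ W ∧ ∀ y : ℕ, WL (PL y) ≤ W := by
  have hs : Summable fun n : ℕ => (1 / Real.sqrt (n : ℝ)) ^ 3 := by
    have h1 := Real.summable_one_div_nat_rpow.2 (by norm_num : (1 : ℝ) < 3 / 2)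
    refine h1.congr fun n => ?_
    rw [div_pow, one_pow, Real.sqrt_eq_rpow, ← Real.rpow_natCast, ← Real.rpow_mul (Nat.cast_nonneg n)]
    norm_num
  refine ⟨∑' n : ℕ, (1 / Real.sqrt (n : ℝ)) ^ 3, tsum_nonneg fun n => by positivity, fun y => ?_⟩
  unfold WL PL
  rw [Finset.sum_map_toList]
  exact hs.sum_le_tsum _ fun n _ => by positivity

theorem ev_facts : (∀ M : ℝ, ∀ᶠ N : ℕ in atTop, M ≤ Real.log (Real.log N)) ∧
    (∀ M : ℝ, ∀ᶠ N : ℕ in atTop, M ≤ Real.log N) ∧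
    (∀ κ : ℝ, 0 < κ → ∀ᶠ N : ℕ in atTop, Real.log (Real.log N) ≤ κ * Real.log N) ∧
    (∀ κ : ℝ, 0 < κ → ∀ᶠ N : ℕ in atTop,
      Real.log (Real.log (Real.log N)) ≤ κ * Real.log (Real.log N)) ∧
    (∀ᶠ N : ℕ in atTop, Real.log (Real.log N) ^ 3 ≤ Real.log N) := by
  have t1 : Tendsto (fun N : ℕ => Real.log N) atTop atTop :=
    Real.tendsto_log_atTop.comp tendsto_natCast_atTop_atTop
  have t2 : Tendsto (fun N : ℕ => Real.log (Real.log N)) atTop atTop :=
    Real.tendsto_log_atTop.comp t1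
  have l1 : ∀ κ : ℝ, 0 < κ → ∀ᶠ x : ℝ in atTop, Real.log x ≤ κ * x := by
    intro κ hκ
    filter_upwards [Real.isLittleO_log_id_atTop.bound hκ, eventually_ge_atTop (1 : ℝ)] with x h1 h2
    simp only [id, Real.norm_eq_abs] at h1
    rw [abs_of_nonneg (by linarith : (0 : ℝ) ≤ x)] at h1
    exact (le_abs_self _).trans h1
  refine ⟨fun M => t2.eventually_ge_atTop M, fun M => t1.eventually_ge_atTop M,
    fun κ hκ => t1.eventually (l1 κ hκ), fun κ hκ => t2.eventually (l1 κ hκ), ?_⟩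
  have l3 : ∀ᶠ x : ℝ in atTop, Real.log x ^ 3 ≤ x := by
    filter_upwards [(Real.isLittleO_pow_log_id_atTop (n := 3)).bound one_pos,
      eventually_ge_atTop (1 : ℝ)] with x h1 h2
    simp only [id, Real.norm_eq_abs, one_mul] at h1
    rw [abs_of_nonneg (by linarith : (0 : ℝ) ≤ x)] at h1
    exact (le_abs_self _).trans h1
  exact t1.eventually l3

theorem exp_neg_le_inv {z : ℝ} (hz : 0 < z) : Real.exp (-z) ≤ 1 / z := by
  rw [Real.exp_neg, ← one_div]
  exact one_div_le_one_div_of_le hz (by linarith [Real.add_one_le_exp z])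

theorem params0 (C c B A : ℝ) (hC : 0 < C) (hc : 0 < c) (hA : 0 < A) (hA2 : A < 1 / 2)
    (M0 : ℝ) : ∃ C0 : ℝ, 0 ≤ C0 ∧ ∀ᶠ N : ℕ in atTop, ∃ (y K : ℕ), 1 ≤ y ∧ (∀ p ∈ PL y, p ≠ N) ∧
      1 ≤ K ∧ (y : ℝ) ^ (2 * K) ≤ Real.exp (c / 4 * Real.log N) ∧
      C * VL (PL y) ≤ K ∧ Real.log (Real.log N) ≤ K ∧ 1 ≤ VL (PL y) ∧
      VL (PL y) ≤ Real.log (Real.log N) + C0 ∧
      (1 - (1 / 2 - A) / 3) * Real.log (Real.log N) ≤ VL (PL y) ∧
      Real.log (Real.log N) / 2 ≤ VL (PL y) ∧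
      5 * K ≤ c / 4 * Real.log N ∧ Real.log (Real.log N) ≤ c / 4 * Real.log N ∧
      B ≤ Real.exp (c / 4 * Real.log N) / 2 ∧ M0 ≤ Real.log (Real.log N) ∧
      4 ≤ Real.log (Real.log N) := by
  obtain ⟨C0', hmert⟩ := Pool.Agent.Erdos456.Mert.mertens_inv
  obtain ⟨f1, f2, f3, f4, f5⟩ := ev_facts
  set C0 : ℝ := max C0' 0 with hC0
  have hC00 : 0 ≤ C0 := le_max_right _ _
  set ε : ℝ := (1 / 2 - A) / 3 with hε
  have hε0 : 0 < ε := by rw [hε]; linarith
  have hε6 : ε < 1 / 6 := by rw [hε]; linarith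
  set D : ℝ := 2 * C + 2 with hD
  refine ⟨C0, hC00, ?_⟩
  filter_upwards [f1 4, f1 (2 * C0), f1 (4 * (Real.log 2 + C0) / ε), f1 (8 * D / c), f1 (4 / c),
    f1 M0, f2 (8 * B / c), f3 (c / 4) (by positivity), f3 (c / (24 * D)) (by positivity),
    f4 (ε / 8) (by positivity), f5, f2 4, eventually_ge_atTop 1]
    with N g1 g2 g3 g4 g5 g6 g9 g10 g11 g12 g13 g14 g15
  have hN0 : (0 : ℝ) < N := by exact_mod_cast g15
  set x : ℝ := Real.log N with hx
  set ℓ : ℝ := Real.log x with hℓ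
  have hx0 : 0 < x := by linarith
  have hNx : (N : ℝ) = Real.exp x := (Real.exp_log hN0).symm
  have hxℓ : x = Real.exp ℓ := (Real.exp_log hx0).symm
  have hℓ0 : 0 < ℓ := by linarith
  -- the exponent
  set u : ℝ := x / ℓ ^ 2 with hu
  have hu1 : ℓ ≤ u := by
    rw [hu, le_div_iff₀ (by positivity)]
    calc ℓ * ℓ ^ 2 = ℓ ^ 3 := by ring
      _ ≤ x := g13
  have hux : u * ℓ ^ 2 = x := by rw [hu]; field_simp
  set Y : ℝ := Real.exp u with hY
  have hY4 : 4 ≤ Y := by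
    have := Real.add_one_le_exp u
    rw [hY]; linarith
  set y : ℕ := ⌊Y⌋₊ with hy
  have hyY : (y : ℝ) ≤ Y := Nat.floor_le (by linarith)
  have hyY2 : Y / 2 ≤ y := by
    have := Nat.lt_floor_add_one Y
    rw [← hy] at this
    linarith
  have hy3 : 3 ≤ y := by
    rw [hy]
    exact Nat.le_floor (by push_cast; linarith)
  have hy0 : (0 : ℝ) < y := by exact_mod_cast (by omega : 0 < y)
  have hlogy1 : Real.log y ≤ u := by
    have := Real.log_le_log hy0 hyY
    rwa [hY, Real.log_exp] at this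
  have hlogy2 : u / 2 ≤ Real.log y := by
    have h1 := Real.log_le_log (by positivity : 0 < Y / 2) hyY2
    rw [Real.log_div (by positivity) (by norm_num), hY, Real.log_exp] at h1
    have h2 : Real.log 2 ≤ 1 := by
      have := Real.log_two_lt_d9; linarith
    linarith
  have hll1 : Real.log (Real.log y) ≤ ℓ := by
    refine Real.log_le_log (by linarith) (hlogy1.trans ?_)
    rw [← hux]
    have : (1 : ℝ) ≤ ℓ ^ 2 := by nlinarith
    nlinarith
  have hll2 : ℓ - 2 * Real.log ℓ - Real.log 2 ≤ Real.log (Real.log y) := by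
    have h1 := Real.log_le_log (by positivity : 0 < u / 2) hlogy2
    rw [Real.log_div (by positivity) (by norm_num), hu, Real.log_div (by positivity) (by positivity),
      Real.log_pow] at h1
    push_cast at h1
    linarith
  have hm := (abs_le.1 ((hmert y hy3).trans (le_max_left C0' 0)))
  rw [← VL_PL, ← hC0] at hm
  set V : ℝ := VL (PL y) with hV
  have hV1 : V ≤ ℓ + C0 := by linarith [hm.2]
  have hV2 : V ≤ 2 * ℓ := by linarith
  have hV3 : (1 - ε) * ℓ ≤ V := by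
    have h1 : Real.log 2 + C0 ≤ ε / 4 * ℓ := by
      rw [div_le_iff₀ hε0] at g3
      linarith
    have h2 : Real.log ℓ ≤ ε / 8 * ℓ := g12
    nlinarith [hm.1]
  have hV4 : 1 ≤ V := by nlinarith
  have hV5 : ℓ / 2 ≤ V := by nlinarith
  set K : ℕ := ⌈(2 * C + 1) * ℓ⌉₊ with hK
  have hK1 : (2 * C + 1) * ℓ ≤ K := Nat.le_ceil _
  have hK2 : (K : ℝ) ≤ D * ℓ := by
    have := Nat.ceil_lt_add_one (by positivity : 0 ≤ (2 * C + 1) * ℓ)
    rw [hD]
    nlinarith
  have hK3 : ℓ ≤ K := by nlinarith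
  have hD0 : 0 < D := by positivity
  -- sizes
  have hDℓ : 8 * D ≤ c * ℓ := by rw [div_le_iff₀ hc] at g4; linarith
  have hcℓ : 4 ≤ c * ℓ := by rw [div_le_iff₀ hc] at g5; linarith
  have hKu : 2 * K * u ≤ c / 4 * x := by
    calc 2 * K * u ≤ 2 * (D * ℓ) * u := by gcongr
      _ ≤ c / 4 * (ℓ * ℓ) * u := by
          have hu0 : 0 ≤ u := by linarith
          have : 2 * (D * ℓ) ≤ c / 4 * (ℓ * ℓ) := by nlinarith
          exact mul_le_mul_of_nonneg_right this hu0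
      _ = c / 4 * x := by rw [← hux]; ring
  have hypow : (y : ℝ) ^ (2 * K) ≤ Real.exp (c / 4 * x) := by
    calc (y : ℝ) ^ (2 * K) ≤ Y ^ (2 * K) := pow_le_pow_left₀ hy0.le hyY _
      _ = Real.exp (2 * K * u) := by
          rw [hY, ← Real.exp_nat_mul]
          push_cast
          rfl
      _ ≤ _ := Real.exp_le_exp.2 hKu
  have hNc : (N : ℝ) ^ c = Real.exp (c * x) := by
    rw [hNx, ← Real.exp_mul]
    ring_nf
  have hNc' : (N : ℝ) ^ (-c) = Real.exp (-(c * x)) := by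
    rw [hNx, ← Real.exp_mul]
    ring_nf
  have hBx : B ≤ Real.exp (c / 4 * x) / 2 := by
    have h1 := Real.add_one_le_exp (c / 4 * x)
    rw [div_le_iff₀ hc] at g9
    linarith
  have h5K : 5 * (K : ℝ) ≤ c / 4 * x := by
    have h1 : ℓ ≤ c / (24 * D) * x := g11
    have h2 : D * ℓ ≤ c / 24 * x := by
      calc D * ℓ ≤ D * (c / (24 * D) * x) := by gcongr
        _ = c / 24 * x := by field_simp
    have h3 : 0 ≤ c / 24 * x := by positivity
    linarith
  refine ⟨y, K, by omega, fun p hp hpN => ?_, ?_, hypow, ?_, hK3, hV4, hV1, hV3, hV5, h5K, g10, hBx, g6, g1⟩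
  · have h1 : (N : ℝ) ≤ y := by
      rw [← hpN]
      exact_mod_cast (mem_PL.1 hp).2
    have h2 : Real.exp x ≤ Real.exp u := by
      rw [← hNx]
      exact h1.trans hyY
    rw [Real.exp_le_exp, ← hux] at h2
    have hu0 : 0 < u := by linarith
    have : (16 : ℝ) ≤ ℓ ^ 2 := by nlinarith
    nlinarith
  · have : (0 : ℝ) < K := by linarith
    exact_mod_cast this
  · calc C * V ≤ C * (2 * ℓ) := by gcongr
      _ ≤ (2 * C + 1) * ℓ := by nlinarith
      _ ≤ K := hK1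

end Pool.Agent.Q255.CV
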