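import Pool.Agent.Q255.CV.C2
import Pool.Agent.Q255.CV.D

/-! # Large deviations: choice of the parameters -/

set_option autoImplicit false

namespace Pool.Agent.Q255.CV

open Finset Filter Topology

theorem params2 (C c B A e : ℝ) (hC : 0 < C) (hc : 0 < c) (hB : 0 ≤ B) (hA : -(1 / 2) < A)
    (hA2 : A < 1 / 2) (he : 0 < e) :
    ∀ᶠ N : ℕ in atTop, ∃ (y K : ℕ) (l : List ℕ), 1 ≤ y ∧ l.Nodup ∧
      (∀ p ∈ l, p.Prime ∧ p ≠ N ∧ p ≤ y) ∧ (y : ℝ) ^ (2 * K) ≤ (N : ℝ) ^ c ∧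
      C * VL l ≤ K ∧ 0 ≤ VL l ∧ 3 * ((1 / 2 - A) * ((1 / 2 - A) * VL l)) ≤ 2 * K ∧
      2 * Real.exp (-((1 / 2 - A) * ((1 / 2 - A) * VL l))) *
      (Real.exp ((1 / 2 - A) ^ 2 / 2 * VL l + 70 * WL l) + Real.exp (-K) +
        B * (N : ℝ) ^ (-c) * ((2 * K + 1) * (1 + DL l) ^ (2 * K))) +
      Real.exp ((1 - (1 / 2 - A)) * ((1 / 2 - A) * VL l)) / (Real.log N) ^ (-A) *
        (2 * (Real.exp (((1 / 2 - A) ^ 2 - 1) / 2 * VL l + 70 * WL l) +
        Real.exp (-K)) + B * (N : ℝ) ^ (-c) * ((2 * K + 1) * (1 + DL l) ^ (2 * K))) ≤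
      (Real.log N) ^ (-((1 / 2 - A) ^ 2 / 2) + e) := by
  obtain ⟨W, hW0, hW⟩ := WL_PL_le
  set a : ℝ := 1 / 2 - A with ha
  have ha0 : 0 < a := by rw [ha]; linarith
  have ha1 : a < 1 := by rw [ha]; linarith
  have hAa : A = 1 / 2 - a := by rw [ha]; ring
  set ε : ℝ := min (e / 4) (1 / 12) with hε
  have hε0 : 0 < ε := lt_min (by linarith) (by norm_num)
  have hε1 : ε ≤ e / 4 := min_le_left _ _
  have hε2 : ε ≤ 1 / 12 := min_le_right _ _
  obtain ⟨C0, hC0, h0⟩ := params0 (C + 12) c B (1 / 2 - 3 * ε) (by linarith) hc (by linarith)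
    (by linarith) 0
  filter_upwards [h0, ev_facts.1 (2 / e * (Real.log 12 + 70 * W + C0)), eventually_ge_atTop 1]
    with N hN hN2 hN1
  obtain ⟨y, K, a1, a2, a3, a4, a5, a6, a7, a8, a9, a10, a11, a12, a13, a14, a15⟩ := hN
  have hN0 : (0 : ℝ) < N := by exact_mod_cast hN1
  set x : ℝ := Real.log N with hx
  set ℓ : ℝ := Real.log x with hℓ
  have hℓ0 : 0 < ℓ := by linarith
  have hx0 : 0 < x := by
    by_contra h
    have h1 : 0 ≤ c / 4 * x := by linarith
    have h2 : x = 0 := by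
      push Not at h
      nlinarith
    rw [hℓ, h2, Real.log_zero] at hℓ0
    exact lt_irrefl _ hℓ0
  have hNx : (N : ℝ) = Real.exp x := (Real.exp_log hN0).symm
  have hxℓ : x = Real.exp ℓ := (Real.exp_log hx0).symm
  have hNc : (N : ℝ) ^ c = Real.exp (c * x) := by
    rw [hNx, ← Real.exp_mul]
    ring_nf
  have hNc' : (N : ℝ) ^ (-c) = Real.exp (-(c * x)) := by
    rw [hNx, ← Real.exp_mul]
    ring_nf
  have hcx0 : 0 < c * x := by positivity
  set V : ℝ := VL (PL y) with hV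
  have hV0 : 0 ≤ V := by linarith
  have hDL := DL_PL_le y
  have hDL0 := DL_nonneg (PL y)
  have hy1 : (1 : ℝ) ≤ y := by exact_mod_cast a1
  have a5' : C * V + 12 * V ≤ K := by linarith
  have hCV0 : 0 ≤ C * V := by positivity
  have haa : a * (a * V) ≤ V := by
    have h1 : a * V ≤ 1 * V := mul_le_mul_of_nonneg_right ha1.le hV0
    have h2 : a * (a * V) ≤ 1 * (a * V) := mul_le_mul_of_nonneg_right ha1.le (by positivity)
    linarith
  refine ⟨y, K, PL y, a1, nodup_PL y, fun p hp => ⟨(mem_PL.1 hp).1, a2 p hp, (mem_PL.1 hp).2⟩, ?_,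
    by linarith, hV0, by linarith, ?_⟩
  · rw [hNc]
    exact a4.trans (Real.exp_le_exp.2 (by linarith))
  -- K is large
  have hK6 : 6 * ℓ ≤ K := by linarith
  -- the error term
  have hδ2 : B * (N : ℝ) ^ (-c) * ((2 * K + 1) * (1 + DL (PL y)) ^ (2 * K)) ≤ Real.exp (-(3 * ℓ)) := by
    have h1 : (1 + DL (PL y)) ^ (2 * K) ≤ Real.exp (3 * K) * Real.exp (c / 4 * x) := by
      calc (1 + DL (PL y)) ^ (2 * K) ≤ (3 * y) ^ (2 * K) :=
            pow_le_pow_left₀ (by positivity) (by linarith) _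
        _ = (9 : ℝ) ^ K * (y : ℝ) ^ (2 * K) := by
            rw [mul_pow, pow_mul 3]
            norm_num
        _ ≤ Real.exp (3 * K) * Real.exp (c / 4 * x) := by
            refine mul_le_mul ?_ a4 (by positivity) (Real.exp_pos _).le
            have h9 : (9 : ℝ) ≤ Real.exp 3 := by
              have e : Real.exp 3 = Real.exp 1 * Real.exp 1 * Real.exp 1 := by
                rw [← Real.exp_add, ← Real.exp_add]; norm_num
              rw [e]
              have h2 := Real.exp_one_gt_d9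
              have h3 : (2.7 : ℝ) ≤ Real.exp 1 := by linarith
              have h4 : (2.7 : ℝ) * 2.7 ≤ Real.exp 1 * Real.exp 1 := by
                exact mul_le_mul h3 h3 (by norm_num) (by linarith)
              have h5 : (2.7 : ℝ) * 2.7 * 2.7 ≤ Real.exp 1 * Real.exp 1 * Real.exp 1 :=
                mul_le_mul h4 h3 (by norm_num) (by positivity)
              linarith
            calc (9 : ℝ) ^ K ≤ Real.exp 3 ^ K := pow_le_pow_left₀ (by norm_num) h9 _
              _ = Real.exp (3 * K) := by rw [← Real.exp_nat_mul]; ring_nf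
    have h2 : (2 * (K : ℝ) + 1) ≤ Real.exp (2 * K) := Real.add_one_le_exp _
    calc B * (N : ℝ) ^ (-c) * ((2 * K + 1) * (1 + DL (PL y)) ^ (2 * K))
        ≤ (Real.exp (c / 4 * x)) * Real.exp (-(c * x)) *
          (Real.exp (2 * K) * (Real.exp (3 * K) * Real.exp (c / 4 * x))) := by
          rw [hNc']
          have hB' : B ≤ Real.exp (c / 4 * x) := by
            have := Real.exp_pos (c / 4 * x)
            linarith
          gcongr
      _ = Real.exp (-(c / 2 * x) + 5 * K) := by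
          rw [← Real.exp_add, ← Real.exp_add, ← Real.exp_add, ← Real.exp_add]
          ring_nf
      _ ≤ Real.exp (-(3 * ℓ)) := Real.exp_le_exp.2 (by linarith)
  have hK2 : Real.exp (-(K : ℝ)) ≤ Real.exp (-(3 * ℓ)) := Real.exp_le_exp.2 (by linarith)
  have hxA : x ^ (-A) = Real.exp (-(A * ℓ)) := by
    rw [hxℓ, ← Real.exp_mul]
    ring_nf
  have hxe : x ^ (-(a ^ 2 / 2) + e) = Real.exp (-(a ^ 2 / 2) * ℓ + e * ℓ) := by
    rw [hxℓ, ← Real.exp_mul]
    ring_nf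
  have hWy := hW y
  have a9' : (1 - ε) * ℓ ≤ V := by
    have e3 : (1 / 2 - (1 / 2 - 3 * ε)) / 3 = ε := by ring
    rwa [e3] at a9
  have ha2 : a ^ 2 ≤ 1 := pow_le_one₀ ha0.le ha1.le
  -- first part
  have p1 : 2 * Real.exp (-(a * (a * V))) * (Real.exp (a ^ 2 / 2 * V + 70 * WL (PL y)) +
      Real.exp (-K) + B * (N : ℝ) ^ (-c) * ((2 * K + 1) * (1 + DL (PL y)) ^ (2 * K))) ≤
      6 * Real.exp (70 * W + (-(a ^ 2 / 2) * ℓ + e / 2 * ℓ)) := by
    have h1 : Real.exp (-(a * (a * V))) * Real.exp (a ^ 2 / 2 * V + 70 * WL (PL y)) ≤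
        Real.exp (70 * W + (-(a ^ 2 / 2) * ℓ + e / 2 * ℓ)) := by
      rw [← Real.exp_add, Real.exp_le_exp]
      have h2 : a ^ 2 / 2 * ((1 - ε) * ℓ) ≤ a ^ 2 / 2 * V := mul_le_mul_of_nonneg_left a9' (by positivity)
      have h3 : a ^ 2 / 2 * (ε * ℓ) ≤ 1 * (ε * ℓ) := mul_le_mul_of_nonneg_right (by linarith) (by positivity)
      have h4 : ε * ℓ ≤ e / 4 * ℓ := mul_le_mul_of_nonneg_right hε1 hℓ0.le
      have h5 : 0 ≤ e * ℓ := by positivity
      nlinarith
    have h6 : Real.exp (-(a * (a * V))) * Real.exp (-(3 * ℓ)) ≤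
        Real.exp (70 * W + (-(a ^ 2 / 2) * ℓ + e / 2 * ℓ)) := by
      rw [← Real.exp_add, Real.exp_le_exp]
      have h7 : 0 ≤ a * (a * V) := by positivity
      have h8 : a ^ 2 / 2 * ℓ ≤ 1 * ℓ := mul_le_mul_of_nonneg_right (by linarith) hℓ0.le
      have h5 : 0 ≤ e / 2 * ℓ := by positivity
      linarith
    calc 2 * Real.exp (-(a * (a * V))) * (Real.exp (a ^ 2 / 2 * V + 70 * WL (PL y)) +
        Real.exp (-K) + B * (N : ℝ) ^ (-c) * ((2 * K + 1) * (1 + DL (PL y)) ^ (2 * K)))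
        ≤ 2 * Real.exp (-(a * (a * V))) * (Real.exp (a ^ 2 / 2 * V + 70 * WL (PL y)) +
        Real.exp (-(3 * ℓ)) + Real.exp (-(3 * ℓ))) := by
          refine mul_le_mul_of_nonneg_left ?_ (by positivity)
          linarith
      _ = 2 * (Real.exp (-(a * (a * V))) * Real.exp (a ^ 2 / 2 * V + 70 * WL (PL y))) +
          4 * (Real.exp (-(a * (a * V))) * Real.exp (-(3 * ℓ))) := by ring
      _ ≤ _ := by linarith
  -- second part
  have p2 : Real.exp ((1 - a) * (a * V)) / x ^ (-A) * (2 * (Real.exp ((a ^ 2 - 1) / 2 * V +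
      70 * WL (PL y)) + Real.exp (-K)) +
      B * (N : ℝ) ^ (-c) * ((2 * K + 1) * (1 + DL (PL y)) ^ (2 * K))) ≤
      6 * Real.exp (70 * W + C0 + (-(a ^ 2 / 2) * ℓ + e / 2 * ℓ)) := by
    have h4 : Real.exp ((1 - a) * (a * V)) / x ^ (-A) = Real.exp ((1 - a) * (a * V) + A * ℓ) := by
      rw [hxA, ← Real.exp_sub]
      ring_nf
    rw [h4]
    have h1 : Real.exp ((1 - a) * (a * V) + A * ℓ) * Real.exp ((a ^ 2 - 1) / 2 * V + 70 * WL (PL y)) ≤
        Real.exp (70 * W + C0 + (-(a ^ 2 / 2) * ℓ + e / 2 * ℓ)) := by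
      rw [← Real.exp_add, Real.exp_le_exp]
      have e4 : (1 - a) * (a * V) + A * ℓ + ((a ^ 2 - 1) / 2 * V + 70 * WL (PL y)) =
          -((1 - a) ^ 2 / 2 * V) + A * ℓ + 70 * WL (PL y) := by ring
      rw [e4]
      have hb : (1 - a) ^ 2 / 2 ≤ 1 := by nlinarith
      have h2 : (1 - a) ^ 2 / 2 * ((1 - ε) * ℓ) ≤ (1 - a) ^ 2 / 2 * V :=
        mul_le_mul_of_nonneg_left a9' (by positivity)
      have h3 : (1 - a) ^ 2 / 2 * (ε * ℓ) ≤ 1 * (ε * ℓ) := mul_le_mul_of_nonneg_right hb (by positivity)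
      have h5 : ε * ℓ ≤ e / 4 * ℓ := mul_le_mul_of_nonneg_right hε1 hℓ0.le
      have h6 : 0 ≤ e * ℓ := by positivity
      rw [hAa]
      nlinarith
    have h6 : Real.exp ((1 - a) * (a * V) + A * ℓ) * Real.exp (-(3 * ℓ)) ≤
        Real.exp (70 * W + C0 + (-(a ^ 2 / 2) * ℓ + e / 2 * ℓ)) := by
      rw [← Real.exp_add, Real.exp_le_exp]
      have h7 : (1 - a) * (a * V) ≤ V := by
        have h8 : (1 - a) * a ≤ 1 := by nlinarith
        calc (1 - a) * (a * V) = (1 - a) * a * V := by ring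
          _ ≤ 1 * V := mul_le_mul_of_nonneg_right h8 hV0
          _ = V := one_mul V
      have h8 : a ^ 2 / 2 * ℓ ≤ 1 / 2 * ℓ := mul_le_mul_of_nonneg_right (by linarith) hℓ0.le
      have h9 : A * ℓ ≤ 1 / 2 * ℓ := mul_le_mul_of_nonneg_right (by linarith) hℓ0.le
      have h5 : 0 ≤ e / 2 * ℓ := by positivity
      linarith
    calc Real.exp ((1 - a) * (a * V) + A * ℓ) * (2 * (Real.exp ((a ^ 2 - 1) / 2 * V +
        70 * WL (PL y)) + Real.exp (-K)) +
        B * (N : ℝ) ^ (-c) * ((2 * K + 1) * (1 + DL (PL y)) ^ (2 * K)))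
        ≤ Real.exp ((1 - a) * (a * V) + A * ℓ) * (2 * (Real.exp ((a ^ 2 - 1) / 2 * V +
        70 * WL (PL y)) + Real.exp (-(3 * ℓ))) + Real.exp (-(3 * ℓ))) := by
          refine mul_le_mul_of_nonneg_left ?_ (by positivity)
          linarith
      _ = 2 * (Real.exp ((1 - a) * (a * V) + A * ℓ) * Real.exp ((a ^ 2 - 1) / 2 * V + 70 * WL (PL y))) +
          3 * (Real.exp ((1 - a) * (a * V) + A * ℓ) * Real.exp (-(3 * ℓ))) := by ring
      _ ≤ _ := by
        have := Real.exp_pos (70 * W + C0 + (-(a ^ 2 / 2) * ℓ + e / 2 * ℓ))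
        linarith
  have hfin : 12 * Real.exp (70 * W + C0 + (-(a ^ 2 / 2) * ℓ + e / 2 * ℓ)) ≤
      x ^ (-(a ^ 2 / 2) + e) := by
    have h12 : (12 : ℝ) = Real.exp (Real.log 12) := (Real.exp_log (by norm_num)).symm
    rw [hxe, h12, ← Real.exp_add, Real.exp_le_exp]
    have h1 : Real.log 12 + 70 * W + C0 ≤ e / 2 * ℓ := by
      have h2 := mul_le_mul_of_nonneg_left hN2 (by positivity : (0 : ℝ) ≤ e / 2)
      have e5 : e / 2 * (2 / e * (Real.log 12 + 70 * W + C0)) = Real.log 12 + 70 * W + C0 := by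
        field_simp
      rw [e5] at h2
      exact h2
    linarith
  have hle : Real.exp (70 * W + (-(a ^ 2 / 2) * ℓ + e / 2 * ℓ)) ≤
      Real.exp (70 * W + C0 + (-(a ^ 2 / 2) * ℓ + e / 2 * ℓ)) := Real.exp_le_exp.2 (by linarith)
  linarith

end Pool.Agent.Q255.CV
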